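import Pool.Agent.K1H34.Had.PAP

/-!
# The choice of the prime `p`
-/

set_option autoImplicit false

namespace Pool.Agent.K1H34.Had

open Finset Filter
open scoped ArithmeticFunction.vonMangoldt
open Pool.Agent.TH445.OI (evN ev_pow sw_psi)

theorem psi4 : ∃ Z0 : ℕ, ∀ Z : ℕ, Z0 ≤ Z → (Z : ℝ) / 4 ≤ H343E.psiAP Z 4 1 := by
  obtain ⟨y1, h1⟩ := sw_psi 1 1
  obtain ⟨C, hC, N1, hpnt⟩ := psi_pnt 1
  obtain ⟨x2, hx2⟩ := evN _ (Real.tendsto_log_atTop.eventually_ge_atTop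
    (max 4 (4 * (C + 1))))
  refine ⟨y1 + N1 + x2 + 2, fun Z hZ => ?_⟩
  have e := hx2 Z (by omega)
  have e1 : 4 ≤ Real.log Z := (le_max_left _ _).trans e
  have e2 : 4 * (C + 1) ≤ Real.log Z := (le_max_right _ _).trans e
  have a1 := h1 Z (by omega) 4 (by norm_num) (by rw [pow_one]; exact_mod_cast e1) 1 (by norm_num)
    (by norm_num)
  have a2 := hpnt Z (by omega)
  have ht : Nat.totient 4 = 2 := by decide
  rw [ht, pow_one] at a1
  rw [pow_one] at a2
  have hZ0 : (0 : ℝ) < Z := by exact_mod_cast (by omega : 0 < Z)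
  have hl : 0 < Real.log Z := by linarith
  have h3 : (C + 1) * ((Z : ℝ) / Real.log Z) ≤ Z / 4 := by
    rw [mul_div_assoc', div_le_iff₀ hl]
    nlinarith
  have h4 : 0 < (Z : ℝ) / Real.log Z := by positivity
  rw [abs_le] at a1 a2
  push_cast at a1
  nlinarith [a1.1, a2.1]

theorem choose_p (B : ℕ) : ∃ n₀ : ℕ, ∀ n : ℕ, n₀ ≤ n → ∃ p : ℕ, p.Prime ∧ p % 4 = 1 ∧
    Real.log n ^ B < p ∧ (p : ℝ) ≤ Real.log n ^ (B + 3) ∧ ¬ p ∣ n - 1 := by
  obtain ⟨Z0, hZ0⟩ := psi4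
  obtain ⟨C1, hC1⟩ := Chebyshev.psi_sub_theta_le_mul_sqrt
  obtain ⟨x2, hx2⟩ := evN _ (Real.tendsto_log_atTop.eventually_ge_atTop
    (max (7 + Z0) (7 + (16 * |C1|) ^ 2)))
  refine ⟨x2 + 3, fun n hn => ?_⟩
  by_contra hcon
  push Not at hcon
  obtain ⟨L, hL⟩ : ∃ L, L = Real.log n := ⟨_, rfl⟩
  have e := hx2 n (by omega)
  rw [← hL] at e
  have e1 : (7 : ℝ) + Z0 ≤ L := (le_max_left _ _).trans e
  have e2 : 7 + (16 * |C1|) ^ 2 ≤ L := (le_max_right _ _).trans e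
  have hZ0' : (0 : ℝ) ≤ Z0 := Nat.cast_nonneg _
  have hC1' : 0 ≤ (16 * |C1|) ^ 2 := by positivity
  have hL7 : 7 < L + 1 := by linarith
  have hL1 : 1 ≤ L := by linarith
  obtain ⟨Z, hZ⟩ : ∃ Z, Z = ⌊L ^ (B + 3)⌋₊ := ⟨_, rfl⟩
  have hLB : 1 ≤ L ^ B := one_le_pow₀ hL1
  have hLL : L + 1 ≤ L ^ (B + 3) := by
    rw [pow_add]
    nlinarith [mul_le_mul hLB hL1 (by norm_num) (by linarith : (0:ℝ) ≤ L ^ B), sq_nonneg L]
  have hZle : (Z : ℝ) ≤ L ^ (B + 3) := by rw [hZ]; exact Nat.floor_le (by positivity)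
  have hZge : L ^ (B + 3) - 1 ≤ Z := by rw [hZ]; exact (Nat.sub_one_lt_floor _).le
  have hZL : L ≤ Z := by linarith
  have hZZ : Z0 ≤ Z := by
    have : (Z0 : ℝ) ≤ Z := by linarith
    exact_mod_cast this
  have a1 := hZ0 Z hZZ
  -- decomposition
  have a2 : H343E.psiAP Z 4 1 ≤ (Chebyshev.psi (Z : ℝ) - Chebyshev.theta (Z : ℝ)) +
      ∑ p ∈ (Ioc 0 Z).filter (fun p => p.Prime ∧ p % 4 = 1), Real.log p := by
    unfold H343E.psiAP
    rw [Nat.floor_natCast]
    have e0 : Icc 1 Z = Ioc 0 Z := rfl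
    rw [e0, ← Finset.sum_filter_add_sum_filter_not ((Ioc 0 Z).filter fun n => n ≡ 1 [MOD 4])
      (fun n => n.Prime), add_comm]
    apply add_le_add
    · have h1 : Chebyshev.psi (Z : ℝ) - Chebyshev.theta (Z : ℝ) =
          ∑ n ∈ (Ioc 0 Z).filter (fun n => ¬ n.Prime), Λ n := by
        unfold Chebyshev.psi Chebyshev.theta
        rw [Nat.floor_natCast, ← Finset.sum_filter_add_sum_filter_not (Ioc 0 Z) (fun n => n.Prime)]
        have : ∑ n ∈ (Ioc 0 Z).filter (fun n => n.Prime), Λ n =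
            ∑ n ∈ (Ioc 0 Z).filter (fun n => n.Prime), Real.log n :=
          sum_congr rfl fun n hn => ArithmeticFunction.vonMangoldt_apply_prime (mem_filter.1 hn).2
        rw [this]
        ring
      rw [h1]
      refine sum_le_sum_of_subset_of_nonneg ?_ fun n _ _ => ArithmeticFunction.vonMangoldt_nonneg
      intro m hm
      rw [mem_filter, mem_filter] at hm
      rw [mem_filter]
      exact ⟨hm.1.1, hm.2⟩
    · rw [filter_filter]
      have h2 : (Ioc 0 Z).filter (fun a => a ≡ 1 [MOD 4] ∧ a.Prime) =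
          (Ioc 0 Z).filter (fun p => p.Prime ∧ p % 4 = 1) := by
        apply filter_congr
        intro x _
        constructor
        · rintro ⟨h3, h4⟩; exact ⟨h4, h3⟩
        · rintro ⟨h3, h4⟩; exact ⟨h4, h3⟩
      rw [h2]
      refine le_of_eq (sum_congr rfl fun m hm => ?_)
      exact ArithmeticFunction.vonMangoldt_apply_prime (mem_filter.1 hm).2.1
  obtain ⟨Y, hY⟩ : ∃ Y, Y = ⌊L ^ B⌋₊ := ⟨_, rfl⟩
  have a3 : ∑ p ∈ (Ioc 0 Z).filter (fun p => p.Prime ∧ p % 4 = 1), Real.log p ≤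
      Chebyshev.theta (L ^ B) + L := by
    rw [← Finset.sum_filter_add_sum_filter_not _ (fun p : ℕ => (p : ℝ) ≤ L ^ B)]
    apply add_le_add
    · unfold Chebyshev.theta
      refine sum_le_sum_of_subset_of_nonneg ?_ fun m hm _ => ?_
      · intro m hm
        rw [mem_filter, mem_filter, mem_Ioc] at hm
        rw [mem_filter, mem_Ioc]
        exact ⟨⟨hm.1.1.1, Nat.le_floor hm.2⟩, hm.1.2.1⟩
      · rw [mem_filter, mem_Ioc] at hm
        exact Real.log_nonneg (by exact_mod_cast hm.2.one_lt.le)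
    · have h5 : ∀ p ∈ ((Ioc 0 Z).filter (fun p => p.Prime ∧ p % 4 = 1)).filter
          (fun p : ℕ => ¬ (p : ℝ) ≤ L ^ B), p.Prime ∧ p ∣ n - 1 := by
        intro p hp
        rw [mem_filter, mem_filter, mem_Ioc] at hp
        refine ⟨hp.1.2.1, hcon p hp.1.2.1 hp.1.2.2 ?_ ?_⟩
        · rw [← hL]; exact not_le.1 hp.2
        · rw [← hL]
          have : (p : ℝ) ≤ Z := by exact_mod_cast hp.1.1.2
          linarith
      have h6 : ∏ p ∈ ((Ioc 0 Z).filter (fun p => p.Prime ∧ p % 4 = 1)).filter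
          (fun p : ℕ => ¬ (p : ℝ) ≤ L ^ B), p ∣ n - 1 :=
        Finset.prod_primes_dvd _ (fun p hp => (h5 p hp).1.prime) fun p hp => (h5 p hp).2
      have h7 := Nat.le_of_dvd (by omega) h6
      rw [← Real.log_prod fun p hp => by
        have := (h5 p hp).1.pos
        exact_mod_cast this.ne']
      refine le_trans ?_ hL.symm.le
      apply Real.log_le_log
      · exact prod_pos fun p hp => by exact_mod_cast (h5 p hp).1.pos
      · have h8 : ((∏ p ∈ ((Ioc 0 Z).filter (fun p => p.Prime ∧ p % 4 = 1)).filter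
          (fun p : ℕ => ¬ (p : ℝ) ≤ L ^ B), p : ℕ) : ℝ) ≤ ((n - 1 : ℕ) : ℝ) := by exact_mod_cast h7
        push_cast at h8
        refine h8.trans ?_
        exact_mod_cast Nat.sub_le n 1
  have a4 : Chebyshev.theta (L ^ B) ≤ 2 * L ^ B := by
    have h1 := Chebyshev.theta_le_log4_mul_x (x := L ^ B) (by positivity)
    have h2 : Real.log 4 ≤ 2 := by
      have : (4 : ℝ) = 2 ^ 2 := by norm_num
      rw [this, Real.log_pow]
      have := Real.log_two_lt_d9
      push_cast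
      linarith
    nlinarith
  have a5 := hC1 (Z : ℝ)
  have hZpos : (0 : ℝ) < Z := by linarith
  have a6 : C1 * Real.sqrt Z ≤ Z / 16 := by
    have h1 : 16 * |C1| ≤ Real.sqrt Z := by
      apply Real.le_sqrt_of_sq_le
      linarith
    have h2 := Real.mul_self_sqrt hZpos.le
    have h3 : 0 ≤ Real.sqrt Z := Real.sqrt_nonneg _
    have h4 := le_abs_self C1
    nlinarith
  have a7 : L ^ (B + 3) = L ^ B * L ^ 3 := pow_add _ _ _
  obtain ⟨T, hT⟩ : ∃ T, T = L ^ B := ⟨_, rfl⟩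
  rw [← hT] at hLB a4 a7 a3
  have hL7' : 7 ≤ L := by linarith
  have hL2 : 49 ≤ L ^ 2 := by nlinarith
  have hL3 : 49 * L ≤ L ^ 3 := by nlinarith
  have hTL : 49 * (T * L) ≤ T * L ^ 3 := by nlinarith
  have h1 : T ≤ T * L := by nlinarith
  have h2 : L ≤ T * L := by nlinarith
  linarith

end Pool.Agent.K1H34.Had
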