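import Pool.Agent.K1H34.Had.Parts

/-!
# The parts of the basic gadget
-/

set_option autoImplicit false

namespace Pool.Agent.K1H34.Had

open Matrix Finset
open Pool.Agent.Y342.SK

/-- the class of a position -/
def cl (i j : Fin 16) : ℕ := 4011715324 / 4 ^ (i.val ^^^ j.val) % 4

/-- the parts of the skew conference matrix of the basic gadget -/
def bP (c : Fin 4) : Matrix (Fin 16) (Fin 16) ℤ :=
  Matrix.of fun i j => if cl i j = c.val then bD i j else 0

set_option maxRecDepth 100000 in
theorem p_T : ∀ (c : Fin 4) (i j : Fin 16), bP c j i = - bP c i j := by decide +kernel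

set_option maxRecDepth 100000 in
theorem p_sq : ∀ (c : Fin 4) (i j : Fin 16), ∑ k : Fin 16, bP c i k * bP c k j =
    if i = j then -(2 ^ c.val : ℤ) else 0 := by decide +kernel

set_option maxRecDepth 100000 in
theorem p_anti : ∀ (c d : Fin 4), c ≠ d → ∀ i j : Fin 16,
    ∑ k : Fin 16, (bP c i k * bP d k j + bP d i k * bP c k j) = 0 := by decide +kernel

set_option maxRecDepth 100000 in
theorem p_F : ∀ (c : Fin 4) (i j : Fin 16),
    ∑ k : Fin 16, (bP c i k * bF k j + bF i k * bP c k j) = 0 := by decide +kernel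

set_option maxRecDepth 100000 in
theorem p_E : ∀ (c : Fin 4) (i j : Fin 16),
    ∑ k : Fin 16, (bP c i k * bE k j + bE i k * bP c k j) = 0 := by decide +kernel

set_option maxRecDepth 100000 in
theorem p_Y : ∀ (c : Fin 4) (i j : Fin 16),
    ∑ k : Fin 16, (bP c i k * bY k j + bY i k * bP c k j) = 0 := by decide +kernel

set_option maxRecDepth 100000 in
theorem p_sup : ∀ i j : Fin 16, i ≠ j → ∃ c : Fin 4, (bP c i j = 1 ∨ bP c i j = -1) ∧
    ∀ b : Fin 4, b ≠ c → bP b i j = 0 := by decide +kernel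

set_option maxRecDepth 100000 in
theorem p_diag : ∀ (c : Fin 4) (i : Fin 16), bP c i i = 0 := by decide +kernel

set_option maxRecDepth 100000 in
theorem p_sub : ∀ i : Fin 16, ∃ s : Finset (Fin 4), ∑ c ∈ s, 2 ^ c.val = i.val := by decide +kernel

/-- the parts of the basic gadget -/
def baseParts : Parts base (Fin 4) where
  P := bP
  w := fun c => 2 ^ c.val
  diag := p_diag
  sup := p_sup
  PT := fun c => by
    ext i j
    exact p_T c i j
  PP := fun c => sq_eq (c := -((2 ^ c.val : ℕ) : ℤ)) fun i j => by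
    rw [p_sq]
    push_cast
    rfl
  anti := fun c d h => rel_neg (p_anti c d h)
  PA := fun c _ => rel_neg (p_F c)
  PE := fun c => rel_neg (p_E c)
  PY := fun c => rel_neg (p_Y c)
  tot := by decide
  sub := fun i hi => by
    rw [Fintype.card_fin] at hi
    exact p_sub ⟨i, hi⟩

/-- gadgets with `2 ^ k` arms of order `2 ^ (5 * 2 ^ k - 1)`, with parts -/
theorem exists_parts (k : ℕ) : ∃ (ι κ γ : Type) (_ : Fintype ι) (_ : DecidableEq ι)
    (_ : Fintype κ) (_ : DecidableEq κ) (_ : Fintype γ) (_ : DecidableEq γ) (G : Gad ι κ),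
    Fintype.card ι = 2 ^ (5 * 2 ^ k - 1) ∧ Fintype.card κ = 2 ^ k ∧ Nonempty (Parts G γ) := by
  induction k with
  | zero => exact ⟨Fin 16, Fin 1, Fin 4, inferInstance, inferInstance, inferInstance,
      inferInstance, inferInstance, inferInstance, base, by simp, by simp, ⟨baseParts⟩⟩
  | succ k ih =>
    obtain ⟨ι, κ, γ, i1, i2, i3, i4, i5, i6, G, h1, h2, ⟨D⟩⟩ := ih
    refine ⟨Fin 2 × (ι × ι), Fin 2 × κ, γ ⊕ (γ ⊕ Unit), inferInstance, inferInstance,
      inferInstance, inferInstance, inferInstance, inferInstance, G.step, ?_, ?_, ⟨D.step⟩⟩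
    · rw [Fintype.card_prod, Fintype.card_prod, Fintype.card_fin, h1, ← pow_add, ← pow_succ']
      congr 1
      have : 1 ≤ 2 ^ k := Nat.one_le_two_pow
      rw [pow_succ]
      omega
    · rw [Fintype.card_prod, Fintype.card_fin, h2, pow_succ']

end Pool.Agent.K1H34.Had
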