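import Pool.Agent.K1H34.Had.LF
import Pool.Agent.K1H34.Had.PBase

/-!
# Orthogonal designs with four variables from gadgets and complementary families
-/

set_option autoImplicit false

namespace Pool.Agent.K1H34.Had

open Matrix Finset
open scoped Kronecker
open Pool.Agent.Y342.SK
open Pool.Agent.H108R3.Had (PUk)

/-- a full orthogonal design with the four weights `w`, indexed by `μ` -/
structure OD (μ : Type) [Fintype μ] [DecidableEq μ] (w : Fin 4 → ℤ) where
  /-- signs -/
  sgn : μ → μ → ℤ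
  /-- labels -/
  lab : μ → μ → Fin 4
  sg : ∀ i j, Sg (sgn i j)
  orth : ∀ (x : Fin 4 → ℤ) (i j : μ),
    ∑ k, (sgn i k * x (lab i k)) * (sgn j k * x (lab j k)) =
      if i = j then ∑ l, w l * x l ^ 2 else 0

section rel

variable {ι : Type} [Fintype ι]

theorem rel_smul_left {s : ℤ} {X Y : Matrix ι ι ℤ} (h : Rel s X Y) (a : ℤ) : Rel s (a • X) Y := by
  unfold Pool.Agent.Y342.SK.Rel at *
  rw [Matrix.smul_mul, h, Matrix.mul_smul, smul_comm]

theorem rel_sum_left {α : Type} (t : Finset α) {s : ℤ} {X : α → Matrix ι ι ℤ} {Y : Matrix ι ι ℤ}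
    (h : ∀ a ∈ t, Rel s (X a) Y) : Rel s (∑ a ∈ t, X a) Y := by
  unfold Pool.Agent.Y342.SK.Rel at *
  rw [Finset.sum_mul, Finset.mul_sum, Finset.smul_sum]
  exact Finset.sum_congr rfl h

theorem rel_sum_right {α : Type} (t : Finset α) {s : ℤ} {X : Matrix ι ι ℤ} {Y : α → Matrix ι ι ℤ}
    (h : ∀ a ∈ t, Rel s X (Y a)) : Rel s X (∑ a ∈ t, Y a) := by
  unfold Pool.Agent.Y342.SK.Rel at *
  rw [Finset.sum_mul, Finset.mul_sum, Finset.smul_sum]
  exact Finset.sum_congr rfl h

theorem sum_sq {α : Type} [DecidableEq α] (t : Finset α) (X : α → Matrix ι ι ℤ)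
    (h : ∀ a b, a ≠ b → Rel (-1) (X a) (X b)) :
    (∑ a ∈ t, X a) * (∑ a ∈ t, X a) = ∑ a ∈ t, X a * X a := by
  induction t using Finset.induction_on with
  | empty => simp
  | insert a t ha ih =>
    rw [Finset.sum_insert ha, Finset.sum_insert ha, sq_add, ih]
    exact rel_sum_right t fun b hb => h a b fun h' => ha (h' ▸ hb)

end rel

section asm

variable {ι κ γ : Type} [Fintype ι] [DecidableEq ι] [Fintype κ] [DecidableEq κ] [Fintype γ]
  [DecidableEq γ] {G : Gad ι κ} (D : Parts G γ) (τ : γ → Fin 4)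
variable {q : ℕ} [NeZero q] (C : κ → Matrix (ZMod q) (ZMod q) ℤ) (x : Fin 4 → ℤ)

/-- the labelled conference matrix -/
def Dx : Matrix ι ι ℤ := ∑ c, x (τ c) • D.P c

theorem Dx_sq : Dx D τ x * Dx D τ x =
    (-(∑ c, (D.w c : ℤ) * x (τ c) ^ 2)) • (1 : Matrix ι ι ℤ) := by
  unfold Dx
  rw [sum_sq]
  · rw [← Finset.sum_neg_distrib, Finset.sum_smul]
    refine Finset.sum_congr rfl fun c _ => ?_
    rw [Matrix.smul_mul, Matrix.mul_smul, D.PP, smul_smul, smul_smul]
    congr 1
    ring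
  · intro a b hab
    exact (rel_smul_left ((rel_smul_left (D.anti a b hab) _).symm (by norm_num)) _).symm
      (by norm_num)

theorem Dx_T : (Dx D τ x)ᵀ = - Dx D τ x := by
  unfold Dx
  rw [transpose_sum, ← Finset.sum_neg_distrib]
  refine Finset.sum_congr rfl fun c _ => ?_
  rw [transpose_smul, D.PT, smul_neg]

theorem Dx_A (a : κ) : Rel (-1) (Dx D τ x) (G.A a) :=
  rel_sum_left _ fun c _ => rel_smul_left (D.PA c a) _

/-- the labelled skew matrix -/
def Kx : Matrix (ι × ZMod q) (ι × ZMod q) ℤ :=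
  Dx D τ x ⊗ₖ (1 : Matrix (ZMod q) (ZMod q) ℤ) + (Qm G C - (Qm G C)ᵀ)

omit [NeZero q] in
theorem Kx_T : (Kx D τ C x)ᵀ = - Kx D τ C x := by
  unfold Kx
  rw [transpose_add, transpose_sub, transpose_transpose, ← kroneckerMap_transpose,
    transpose_one, Dx_T]
  ext i j
  simp only [Matrix.add_apply, Matrix.neg_apply, Matrix.sub_apply, kroneckerMap_apply]
  ring

theorem Kx_sq (hC : ∀ a b, C a * C b = C b * C a) (hC' : ∀ a b, C a * (C b)ᵀ = (C b)ᵀ * C a)
    {s : ℤ} (hs : ∑ a, C a * (C a)ᵀ = s • (1 : Matrix (ZMod q) (ZMod q) ℤ)) :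
    Kx D τ C x * Kx D τ C x = (-(∑ c, (D.w c : ℤ) * x (τ c) ^ 2) - G.c * s) •
      (1 : Matrix (ι × ZMod q) (ι × ZMod q) ℤ) := by
  have h1 := Qm_sq G C hC
  have h2 := Qm_QmT G C hC' hs
  have h3 : (Qm G C)ᵀ * (Qm G C)ᵀ = 0 := by rw [← transpose_mul, h1, transpose_zero]
  have h4 : Rel (-1) (Dx D τ x ⊗ₖ (1 : Matrix (ZMod q) (ZMod q) ℤ)) (Qm G C) := by
    unfold Pool.Agent.Y342.SK.Rel Qm
    rw [Finset.mul_sum, Finset.sum_mul, Finset.smul_sum]
    refine Finset.sum_congr rfl fun a _ => ?_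
    have := (Dx_A D τ x a).kron (Rel.one_left (C a))
    unfold Pool.Agent.Y342.SK.Rel at this
    simpa using this
  have h5 : Rel (-1) (Dx D τ x ⊗ₖ (1 : Matrix (ZMod q) (ZMod q) ℤ)) (Qm G C)ᵀ := by
    have := h4.transpose (by norm_num)
    unfold Pool.Agent.Y342.SK.Rel at this ⊢
    rw [← kroneckerMap_transpose, transpose_one, Dx_T] at this
    have e : (-Dx D τ x) ⊗ₖ (1 : Matrix (ZMod q) (ZMod q) ℤ) =
        -(Dx D τ x ⊗ₖ (1 : Matrix (ZMod q) (ZMod q) ℤ)) := by
      ext i j; simp [kroneckerMap_apply]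
    rw [e, neg_mul, mul_neg, smul_neg, neg_inj] at this
    exact this
  have h6 : Rel (-1) (Dx D τ x ⊗ₖ (1 : Matrix (ZMod q) (ZMod q) ℤ)) (Qm G C - (Qm G C)ᵀ) := by
    unfold Pool.Agent.Y342.SK.Rel at *
    rw [mul_sub, sub_mul, h4, h5, smul_sub]
  unfold Kx
  rw [sq_add h6, ← mul_kronecker_mul, Dx_sq, one_mul, smul_kronecker, one_kronecker_one]
  have h7 : (Qm G C - (Qm G C)ᵀ) * (Qm G C - (Qm G C)ᵀ) =
      -(Qm G C * (Qm G C)ᵀ + (Qm G C)ᵀ * Qm G C) := by
    rw [sub_mul, mul_sub, mul_sub, h1, h3]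
    abel
  rw [h7, h2, ← neg_smul, ← add_smul, sub_eq_add_neg (-(∑ c, (D.w c : ℤ) * x (τ c) ^ 2))]

end asm

section main

variable {ι κ γ : Type} [Fintype ι] [DecidableEq ι] [Fintype κ] [DecidableEq κ] [Fintype γ]
  [DecidableEq γ] {G : Gad ι κ} (D : Parts G γ) (τ : γ → Fin 4)
variable {q S : ℕ} [NeZero q] {e : Fin 4 → ℤ} (F : LF κ S e)

/-- the circulants -/
def Cx (q : ℕ) (x : Fin 4 → ℤ) (a : κ) : Matrix (ZMod q) (ZMod q) ℤ :=
  circulant (fS q S fun n => F.W a n * x (F.L a n))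

/-- the weights -/
def wt (l0 : Fin 4) (l : Fin 4) : ℤ :=
  (if l = l0 then 1 else 0) + (∑ c, if τ c = l then (D.w c : ℤ) else 0) + G.c * e l

theorem sum_wt (l0 : Fin 4) (x : Fin 4 → ℤ) :
    ∑ l, wt (e := e) D τ l0 l * x l ^ 2 = x l0 ^ 2 +
      (∑ c, (D.w c : ℤ) * x (τ c) ^ 2) + G.c * ∑ l, e l * x l ^ 2 := by
  unfold wt
  simp only [add_mul, Finset.sum_add_distrib, Finset.sum_mul, Finset.mul_sum]
  congr 1
  · congr 1
    · simp [ite_mul]
    · rw [Finset.sum_comm]
      refine Finset.sum_congr rfl fun c _ => ?_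
      simp [ite_mul]
  · exact Finset.sum_congr rfl fun l _ => by ring

include F in
/-- gadgets with parts and labelled complementary families give orthogonal designs -/
theorem od_of (hq : q = 2 * S + 1) (l0 : Fin 4) :
    Nonempty (OD (ι × ZMod q) (wt (e := e) D τ l0)) := by
  have hC : ∀ x a b, Cx F q x a * Cx F q x b = Cx F q x b * Cx F q x a :=
    fun x a b => circulant_mul_comm _ _
  have hT : ∀ x a, (Cx F q x a)ᵀ = circulant (fun d => fS q S (fun n => F.W a n * x (F.L a n)) (-d)) :=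
    fun x a => transpose_circulant _
  have hC' : ∀ x a b, Cx F q x a * (Cx F q x b)ᵀ = (Cx F q x b)ᵀ * Cx F q x a := fun x a b => by
    rw [hT]; exact circulant_mul_comm _ _
  have hs : ∀ x : Fin 4 → ℤ, ∑ a, Cx F q x a * (Cx F q x a)ᵀ =
      (∑ l, e l * x l ^ 2) • (1 : Matrix (ZMod q) (ZMod q) ℤ) := fun x => (F.cf x).circ
  let W : (Fin 4 → ℤ) → Matrix (ι × ZMod q) (ι × ZMod q) ℤ := fun x =>
    x l0 • (1 : Matrix (ι × ZMod q) (ι × ZMod q) ℤ) + Kx D τ (Cx F q x) x
  have hW : ∀ x, W x * (W x)ᵀ = (∑ l, wt (e := e) D τ l0 l * x l ^ 2) •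
      (1 : Matrix (ι × ZMod q) (ι × ZMod q) ℤ) := by
    intro x
    have h1 := Kx_sq D τ (Cx F q x) x (hC x) (hC' x) (hs x)
    change (x l0 • (1 : Matrix (ι × ZMod q) (ι × ZMod q) ℤ) + Kx D τ (Cx F q x) x) *
      (x l0 • (1 : Matrix (ι × ZMod q) (ι × ZMod q) ℤ) + Kx D τ (Cx F q x) x)ᵀ = _
    rw [transpose_add, transpose_smul, transpose_one, Kx_T, sum_wt, add_mul, mul_add, mul_add,
      Matrix.smul_mul, one_mul, Matrix.smul_mul, one_mul, mul_neg, Matrix.mul_smul, mul_one, h1]
    have e1 : ∀ (X Y Z : Matrix (ι × ZMod q) (ι × ZMod q) ℤ), X + -Y + (Y + -Z) = X - Z := by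
      intro X Y Z; abel
    rw [smul_neg, e1, smul_smul, ← sub_smul]
    congr 1
    ring
  have hent : ∀ (x : Fin 4 → ℤ) (a b : ι) (i j : ZMod q), W x (a, i) (b, j) =
      (if (a, i) = (b, j) then x l0 else 0) +
      ((if i = j then Dx D τ x a b else 0) +
        ((∑ c, G.A c a b * fS q S (fun n => F.W c n * x (F.L c n)) (i - j)) -
          ∑ c, G.A c b a * fS q S (fun n => F.W c n * x (F.L c n)) (j - i))) := by
    intro x a b i j
    simp only [W, Kx, Qm, Cx, Matrix.add_apply, Matrix.smul_apply, Matrix.sub_apply,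
      transpose_apply, Matrix.sum_apply, kroneckerMap_apply, Matrix.one_apply, mul_ite, mul_one,
      mul_zero, smul_eq_mul, circulant_apply]
  have key : ∀ i j : ι × ZMod q, ∃ (s : ℤ) (l : Fin 4), Sg s ∧ ∀ x, W x i j = s * x l := by
    rintro ⟨a, i⟩ ⟨b, j⟩
    have hf0 : ∀ (x : Fin 4 → ℤ) c, fS q S (fun n => F.W c n * x (F.L c n)) (0 : ZMod q) = 0 :=
      fun x c => fS_high hq _ _ (Or.inl ZMod.val_zero)
    by_cases hij : i = j
    · subst hij
      by_cases hab : a = b
      · subst hab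
        refine ⟨1, l0, Or.inl rfl, fun x => ?_⟩
        have hD0 : Dx D τ x a a = 0 := by
          unfold Dx
          rw [Matrix.sum_apply]
          exact Finset.sum_eq_zero fun c _ => by rw [Matrix.smul_apply, D.diag, smul_zero]
        rw [hent, if_pos rfl, if_pos rfl, sub_self, hD0]
        simp only [hf0, mul_zero, Finset.sum_const_zero, sub_zero, add_zero, one_mul]
      · obtain ⟨c, hc, hb⟩ := D.sup a b hab
        refine ⟨D.P c a b, τ c, hc, fun x => ?_⟩
        rw [hent, if_neg (fun h => hab (Prod.ext_iff.1 h).1), if_pos rfl, sub_self]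
        simp only [hf0, mul_zero, Finset.sum_const_zero, sub_zero, add_zero, zero_add]
        unfold Dx
        rw [Matrix.sum_apply, Finset.sum_eq_single c]
        · rw [Matrix.smul_apply, smul_eq_mul, mul_comm]
        · intro d _ hd
          rw [Matrix.smul_apply, hb d hd, smul_zero]
        · intro h; exact absurd (mem_univ _) h
    · have hd : (i - j).val ≠ 0 := by
        rw [Ne, ZMod.val_eq_zero, sub_eq_zero]
        exact hij
      have hlt := ZMod.val_lt (i - j)
      have hneg : (j - i).val = q - (i - j).val := by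
        have : j - i = -(i - j) := by ring
        rw [this, ZMod.neg_val, if_neg (sub_ne_zero.2 hij)]
      have hne : ¬ ((a, i) = (b, j)) := fun h => hij (Prod.ext_iff.1 h).2
      by_cases hle : (i - j).val ≤ S
      · obtain ⟨c, hc, hb⟩ := G.sup a b
        refine ⟨G.A c a b * F.W c ((i - j).val - 1), F.L c ((i - j).val - 1),
          hc.mul (F.sg c _ (by omega)), fun x => ?_⟩
        rw [hent, if_neg hne, if_neg hij, zero_add, zero_add]
        have h1 : ∀ c, fS q S (fun n => F.W c n * x (F.L c n)) (j - i) = 0 :=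
          fun c => fS_high hq _ _ (Or.inr (by omega))
        simp only [h1, mul_zero, Finset.sum_const_zero, sub_zero]
        rw [Finset.sum_eq_single c]
        · rw [fS_low hq _ _ (by omega) hle]
          ring
        · intro b' _ hba
          rw [hb b' hba, zero_mul]
        · intro h; exact absurd (mem_univ _) h
      · obtain ⟨c, hc, hb⟩ := G.sup b a
        refine ⟨-(G.A c b a * F.W c ((j - i).val - 1)), F.L c ((j - i).val - 1),
          (hc.mul (F.sg c _ (by omega))).neg, fun x => ?_⟩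
        rw [hent, if_neg hne, if_neg hij, zero_add, zero_add]
        have h1 : ∀ c, fS q S (fun n => F.W c n * x (F.L c n)) (i - j) = 0 :=
          fun c => fS_high hq _ _ (Or.inr (by omega))
        simp only [h1, mul_zero, Finset.sum_const_zero, zero_sub]
        rw [Finset.sum_eq_single c]
        · rw [fS_low hq _ _ (by omega) (by omega)]
          ring
        · intro b' _ hba
          rw [hb b' hba, zero_mul]
        · intro h; exact absurd (mem_univ _) h
  choose sgn lab hsg hWx using key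
  refine ⟨⟨sgn, lab, hsg, fun x i j => ?_⟩⟩
  have h := congrFun (congrFun (hW x) i) j
  rw [Matrix.mul_apply, Matrix.smul_apply, Matrix.one_apply, smul_eq_mul, mul_ite, mul_one,
    mul_zero] at h
  rw [← h]
  refine Finset.sum_congr rfl fun k _ => ?_
  rw [transpose_apply, hWx, hWx]

end main

/-- transport of an orthogonal design -/
theorem OD.fin {μ : Type} [Fintype μ] [DecidableEq μ] {w : Fin 4 → ℤ} (O : OD μ w) {m : ℕ}
    (hm : Fintype.card μ = m) : Nonempty (OD (Fin m) w) := by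
  let f : Fin m ≃ μ := (Fintype.equivFinOfCardEq hm).symm
  refine ⟨⟨fun i j => O.sgn (f i) (f j), fun i j => O.lab (f i) (f j), fun i j => O.sg _ _,
    fun x i j => ?_⟩⟩
  have h := O.orth x (f i) (f j)
  rw [Equiv.sum_comp f fun k => (O.sgn (f i) k * x (O.lab (f i) k)) *
    (O.sgn (f j) k * x (O.lab (f j) k)), h]
  by_cases hij : i = j
  · rw [if_pos hij, if_pos (congrArg f hij)]
  · rw [if_neg hij, if_neg fun h' => hij (f.injective h')]

/-- the order of the gadgets used -/
def NN (k : ℕ) : ℕ := 2 ^ (5 * 2 ^ (k + 3) - 1)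

/-- the orthogonal designs of the construction -/
theorem exists_OD {k sb s3 s4 i : ℕ} (hb : PUk k sb) (h3 : PUk k s3) (h4 : PUk k s4)
    (hi : i < NN k) : Nonempty (OD (Fin (NN k * (2 * (sb + s3 + s4) + 1)))
      ![NN k * sb, NN k * sb, 2 * NN k * s3 + NN k - i, 2 * NN k * s4 + i]) := by
  obtain ⟨ι, κ, γ, i1, i2, i3, i4, i5, i6, G, h1, h2, ⟨D⟩⟩ := exists_parts (k + 3)
  obtain ⟨F'⟩ := exists_LF hb h3 h4
  have F := F'.equiv (Fintype.equivOfCardEq (by rw [h2, Fintype.card_fin]) :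
    κ ≃ Fin (2 ^ (k + 3)))
  obtain ⟨s, hs⟩ := D.sub i (by rw [h1]; exact hi)
  let τ : γ → Fin 4 := fun c => if c ∈ s then 3 else 2
  have : NeZero (2 * (sb + s3 + s4) + 1) := ⟨by omega⟩
  obtain ⟨O⟩ := od_of (q := 2 * (sb + s3 + s4) + 1) D τ F rfl 2
  have hw : wt (e := ![4 * 2 ^ k * sb, 4 * 2 ^ k * sb, 8 * 2 ^ k * s3, 8 * 2 ^ k * s4]) D τ 2 =
      ![(NN k : ℤ) * sb, NN k * sb, 2 * NN k * s3 + NN k - i, 2 * NN k * s4 + i] := by
    have hN : (NN k : ℤ) = Fintype.card ι := by rw [h1]; rfl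
    have hc := G.hc
    rw [← hN, h2] at hc
    have hc' : G.c * 2 ^ k * 8 = 2 * NN k := by
      rw [← hc]
      push_cast
      rw [pow_add]
      ring
    have hc'' : G.c * 2 ^ k * 4 = NN k := by linarith
    have hs3 : ∑ c, (if τ c = 3 then (D.w c : ℤ) else 0) = i := by
      rw [← Finset.sum_filter]
      have : univ.filter (fun c => τ c = 3) = s := by
        ext c
        simp only [τ, mem_filter, mem_univ, true_and]
        by_cases hc : c ∈ s <;> simp [hc]
      rw [this, ← hs]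
      push_cast
      rfl
    have hs2 : 1 + ∑ c, (if τ c = 2 then (D.w c : ℤ) else 0) = NN k - i := by
      have h5 : ∑ c, (if τ c = 2 then (D.w c : ℤ) else 0) +
          ∑ c, (if τ c = 3 then (D.w c : ℤ) else 0) = ∑ c, (D.w c : ℤ) := by
        rw [← Finset.sum_add_distrib]
        refine Finset.sum_congr rfl fun c _ => ?_
        simp only [τ]
        by_cases hc : c ∈ s <;> simp [hc]
      have h6 := D.tot
      have h7 : (1 : ℤ) + ∑ c, (D.w c : ℤ) = NN k := by
        rw [hN, ← h6]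
        push_cast
        rfl
      rw [hs3] at h5
      linarith
    have hs01 : ∀ l : Fin 4, l ≠ 2 → l ≠ 3 → ∑ c, (if τ c = l then (D.w c : ℤ) else 0) = 0 := by
      intro l h2 h3
      refine Finset.sum_eq_zero fun c _ => ?_
      rw [if_neg]
      simp only [τ]
      split_ifs
      · exact fun h => h3 h.symm
      · exact fun h => h2 h.symm
    ext l
    unfold wt
    fin_cases l
    · simp only [Fin.zero_eta, Fin.isValue]
      rw [hs01 0 (by decide) (by decide)]
      simp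
      linear_combination (sb : ℤ) * hc''
    · simp only [Fin.mk_one, Fin.isValue]
      rw [hs01 1 (by decide) (by decide)]
      simp
      linear_combination (sb : ℤ) * hc''
    · simp only [Fin.reduceFinMk, Fin.isValue]
      rw [if_pos trivial, hs2]
      simp
      linear_combination (s3 : ℤ) * hc'
    · simp only [Fin.reduceFinMk, Fin.isValue]
      rw [hs3]
      simp
      linear_combination (s4 : ℤ) * hc'
  rw [hw] at O
  exact O.fin (by rw [Fintype.card_prod, ZMod.card, h1]; rfl)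

end Pool.Agent.K1H34.Had
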