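import Pool.Agent.W851.Had.Tower
import Pool.Agent.K1H34.Had.OD

/-!
# The order of the gadgets is at most the logarithm
-/

set_option autoImplicit false

namespace Pool.Agent.K1H34.Had

open Pool.Agent.W851.Had (tow tow_zero tow_succ tow_pos)

theorem tow_ge (j : ℕ) : j + 1 ≤ tow j := by
  induction j with
  | zero => rw [tow_zero]
  | succ j ih =>
    rw [tow_succ]
    have h1 : 2 ^ (j + 1) ≤ 2 ^ tow j := Nat.pow_le_pow_right (by norm_num) ih
    have h2 : j + 1 < 2 ^ (j + 1) := Nat.lt_two_pow_self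
    omega

theorem tow_mono {a b : ℕ} (h : a ≤ b) : tow a ≤ tow b := by
  induction h with
  | refl => exact le_rfl
  | step _ ih =>
    rw [tow_succ]
    exact ih.trans Nat.lt_two_pow_self.le

theorem sq_le_two_pow (j : ℕ) (hj : 10 ≤ j) : (j + 7) ^ 2 ≤ 2 ^ j := by
  induction j, hj using Nat.le_induction with
  | base => norm_num
  | succ j hj ih =>
    rw [pow_succ 2 j]
    nlinarith

theorem tow_big (C : ℕ) (hC : 2 ≤ C) : ∃ j₀ : ℕ, ∀ j, j₀ ≤ j → C ^ (j + 5) + 7 ≤ tow j := by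
  refine ⟨C + 12, fun j hj => ?_⟩
  obtain ⟨i, rfl⟩ : ∃ i, j = i + 2 := ⟨j - 2, by omega⟩
  have h1 : C ^ (i + 2 + 5) ≤ 2 ^ (C * (i + 7)) := by
    rw [pow_mul]
    exact Nat.pow_le_pow_left Nat.lt_two_pow_self.le _
  have h2 : 7 ≤ 2 ^ (C * (i + 7)) := by
    have : 2 ^ 3 ≤ 2 ^ (C * (i + 7)) := Nat.pow_le_pow_right (by norm_num) (by nlinarith)
    omega
  have h3 : C * (i + 7) + 1 ≤ 2 ^ (i + 1) := by
    have := sq_le_two_pow i (by omega)
    rw [pow_succ 2 i]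
    have hCi : C ≤ i := by omega
    nlinarith
  have h4 : 2 ^ (C * (i + 7) + 1) ≤ 2 ^ 2 ^ (i + 1) := Nat.pow_le_pow_right (by norm_num) h3
  have h5 : 2 ^ 2 ^ (i + 1) ≤ tow (i + 2) := by
    rw [tow_succ, tow_succ]
    exact Nat.pow_le_pow_right (by norm_num) (Nat.pow_le_pow_right (by norm_num) (tow_ge i))
  rw [pow_succ] at h4
  omega

/-- the gadgets needed for all numbers up to `n` have order at most `log n` -/
theorem growth (C : ℕ) (hC : 2 ≤ C) : ∃ n₀ : ℕ, ∀ n : ℕ, n₀ ≤ n → ∃ m : ℕ, n ≤ tow m ∧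
    ((NN (C ^ (m + 1)) : ℕ) : ℝ) ≤ Real.log n := by
  obtain ⟨j₀, hj₀⟩ := tow_big C hC
  refine ⟨tow (j₀ + 4) + 1, fun n hn => ?_⟩
  have hex : ∃ m, n ≤ tow m := ⟨n, by have := tow_ge n; omega⟩
  classical
  obtain ⟨m, hm⟩ : ∃ m, m = Nat.find hex := ⟨_, rfl⟩
  have h1 : n ≤ tow m := by rw [hm]; exact Nat.find_spec hex
  have h2 : j₀ + 4 < m := by
    by_contra hcon
    have := tow_mono (not_lt.1 hcon)
    omega
  obtain ⟨j, rfl⟩ : ∃ j, m = j + 4 := ⟨m - 4, by omega⟩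
  have h3 : tow (j + 3) < n := by
    by_contra hcon
    have := Nat.find_min hex (m := j + 3) (by omega)
    exact this (not_lt.1 hcon)
  refine ⟨j + 4, h1, ?_⟩
  have h4 := hj₀ j (by omega)
  obtain ⟨X, hX⟩ : ∃ X, X = C ^ (j + 5) := ⟨_, rfl⟩
  rw [← hX] at h4
  have h5 : NN (C ^ (j + 4 + 1)) * 2 ≤ tow (j + 2) := by
    rw [show j + 4 + 1 = j + 5 by ring, ← hX]
    unfold NN
    have h6 : 1 ≤ 5 * 2 ^ (X + 3) := by
      have : 0 < 2 ^ (X + 3) := by positivity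
      omega
    rw [← pow_succ, Nat.sub_add_cancel h6, tow_succ, tow_succ]
    refine Nat.pow_le_pow_right (by norm_num) ?_
    have h7 : 2 ^ (X + 7) ≤ 2 ^ tow j := Nat.pow_le_pow_right (by norm_num) h4
    rw [pow_add] at h7 ⊢
    omega
  have h8 : ((NN (C ^ (j + 4 + 1)) : ℕ) : ℝ) * 2 ≤ tow (j + 2) := by exact_mod_cast h5
  have h9 : Real.log 2 * tow (j + 2) ≤ Real.log n := by
    rw [mul_comm, ← Real.log_pow]
    apply Real.log_le_log (by positivity)
    have : 2 ^ tow (j + 2) = tow (j + 3) := by rw [← tow_succ]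
    exact_mod_cast (this ▸ h3.le)
  have h10 := Real.log_two_gt_d9
  have h11 : (0 : ℝ) ≤ tow (j + 2) := by positivity
  nlinarith

end Pool.Agent.K1H34.Had
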