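import Pool.Agent.Y342.SK.Asm

/-!
# Complementary families of labelled sequences
-/

set_option autoImplicit false

namespace Pool.Agent.K1H34.Had

open Matrix Finset
open Pool.Agent.Y342.SK
open Pool.Agent.H108R3.Had (IsPU PU PUk evM)

/-- value at `u` of the polynomial with coefficients `f n`, `n < S` -/
def evs {R : Type} [CommRing R] (f : ℕ → ℤ) (S : ℕ) (u : R) : R :=
  ∑ n ∈ range S, ((f n : ℤ) : R) * u ^ n

/-- the family `F` is complementary, with energy `E` -/
def CF {A : Type} [Fintype A] (S : ℕ) (F : A → ℕ → ℤ) (E : ℤ) : Prop :=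
  ∀ (R : Type) [CommRing R] (u v : R), u * v = 1 → ∑ a, evs (F a) S u * evs (F a) S v = (E : R)

section basic

variable {R : Type} [CommRing R]

theorem evs_congr {f g : ℕ → ℤ} {S : ℕ} (h : ∀ n < S, f n = g n) (u : R) :
    evs f S u = evs g S u :=
  Finset.sum_congr rfl fun n hn => by rw [h n (mem_range.1 hn)]

theorem evs_smul (x : ℤ) (f : ℕ → ℤ) (S : ℕ) (u : R) :
    evs (fun n => f n * x) S u = (x : R) * evs f S u := by
  unfold evs
  rw [Finset.mul_sum]
  refine Finset.sum_congr rfl fun n _ => ?_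
  push_cast
  ring

/-- concatenation of two sequences -/
def cat (s : ℕ) (f g : ℕ → ℤ) (n : ℕ) : ℤ := if n < s then f n else g (n - s)

theorem evs_cat (s s' : ℕ) (f g : ℕ → ℤ) (u : R) :
    evs (cat s f g) (s + s') u = evs f s u + u ^ s * evs g s' u := by
  unfold evs
  rw [Finset.sum_range_add, Finset.mul_sum]
  congr 1
  · refine Finset.sum_congr rfl fun n hn => ?_
    rw [cat, if_pos (mem_range.1 hn)]
  · refine Finset.sum_congr rfl fun n _ => ?_
    rw [cat, if_neg (by omega), Nat.add_sub_cancel_left, pow_add]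
    ring

theorem evs_neg (f : ℕ → ℤ) (S : ℕ) (u : R) : evs (fun n => - f n) S u = - evs f S u := by
  unfold evs
  rw [← Finset.sum_neg_distrib]
  refine Finset.sum_congr rfl fun n _ => ?_
  push_cast
  ring

end basic

variable {A B : Type} [Fintype A] [Fintype B]

theorem CF.congr {S : ℕ} {F F' : A → ℕ → ℤ} {E : ℤ} (h : CF S F E)
    (hF : ∀ a, ∀ n < S, F' a n = F a n) : CF S F' E := by
  intro R _ u v huv
  rw [← h R u v huv]
  refine Finset.sum_congr rfl fun a _ => ?_
  rw [evs_congr (hF a), evs_congr (hF a)]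

theorem CF.smul {S : ℕ} {F : A → ℕ → ℤ} {E : ℤ} (h : CF S F E) (x : ℤ) :
    CF S (fun a n => F a n * x) (E * x ^ 2) := by
  intro R _ u v huv
  have h1 := h R u v huv
  push_cast
  rw [← h1, Finset.sum_mul]
  refine Finset.sum_congr rfl fun a _ => ?_
  rw [evs_smul, evs_smul]
  ring

theorem CF.sum {S : ℕ} {F : A → ℕ → ℤ} {G : B → ℕ → ℤ} {E E' : ℤ} (h : CF S F E)
    (h' : CF S G E') : CF S (Sum.elim F G) (E + E') := by
  intro R _ u v huv
  rw [Fintype.sum_sum_type]
  push_cast
  rw [← h R u v huv, ← h' R u v huv]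
  rfl

theorem CF.cat {s s' : ℕ} {F G : A → ℕ → ℤ} {E E' : ℤ} (h : CF s F E) (h' : CF s' G E') :
    CF (s + s') (Sum.elim (fun a => cat s (F a) (G a)) (fun a => cat s (F a) fun n => - G a n))
      (2 * (E + E')) := by
  intro R _ u v huv
  rw [Fintype.sum_sum_type]
  push_cast
  rw [← h R u v huv, ← h' R u v huv, ← Finset.sum_add_distrib, ← Finset.sum_add_distrib,
    Finset.mul_sum]
  refine Finset.sum_congr rfl fun a _ => ?_
  simp only [Sum.elim_inl, Sum.elim_inr]
  rw [evs_cat, evs_cat, evs_cat, evs_cat, evs_neg, evs_neg]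
  have hs : u ^ s * v ^ s = 1 := by rw [← mul_pow, huv, one_pow]
  linear_combination (2 * evs (G a) s' u * evs (G a) s' v) * hs

/-- labelled complementary families with four labels -/
structure LF (A : Type) [Fintype A] (S : ℕ) (e : Fin 4 → ℤ) where
  /-- signs -/
  W : A → ℕ → ℤ
  /-- labels -/
  L : A → ℕ → Fin 4
  sg : ∀ a, ∀ n < S, Sg (W a n)
  cf : ∀ x : Fin 4 → ℤ, CF S (fun a n => W a n * x (L a n)) (∑ l, e l * x l ^ 2)

/-- a row of a para-unitary matrix, with one label -/
theorem LF.mono {κ : Type} [Fintype κ] [DecidableEq κ] [Nonempty κ] {S : ℕ} (h : PU κ S)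
    (l : Fin 4) : Nonempty (LF κ S (fun m => if m = l then (Fintype.card κ * S : ℕ) else 0)) := by
  obtain ⟨W, hW⟩ := h
  obtain ⟨i₀⟩ := (inferInstance : Nonempty κ)
  refine ⟨⟨fun a n => W n i₀ a, fun _ _ => l, fun a n hn => hW.sign n hn _ _, fun x => ?_⟩⟩
  have h1 : CF S (fun a n => W n i₀ a) ((Fintype.card κ * S : ℕ) : ℤ) := by
    intro R _ u v huv
    have h := hW.left R u v huv
    have h1 := congrFun (congrFun h i₀) i₀
    rw [Matrix.mul_apply, Matrix.smul_apply, Matrix.one_apply_eq, smul_eq_mul, mul_one] at h1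
    rw [Int.cast_natCast, ← h1]
    rfl
  have h2 := h1.smul (x l)
  convert h2 using 1
  simp [Finset.sum_ite_eq', ite_mul]

/-- disjoint union of families -/
def LF.sum {S : ℕ} {e e' : Fin 4 → ℤ} (F : LF A S e) (G : LF B S e') :
    LF (A ⊕ B) S (e + e') where
  W := Sum.elim F.W G.W
  L := Sum.elim F.L G.L
  sg := by
    rintro (a | a) n hn
    · exact F.sg a n hn
    · exact G.sg a n hn
  cf := fun x => by
    have h := (F.cf x).sum (G.cf x)
    have e1 : ∑ l, (e + e') l * x l ^ 2 = (∑ l, e l * x l ^ 2) + ∑ l, e' l * x l ^ 2 := by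
      rw [← Finset.sum_add_distrib]
      exact Finset.sum_congr rfl fun l _ => by rw [Pi.add_apply]; ring
    rw [e1]
    refine h.congr ?_
    rintro (a | a) n _ <;> rfl

/-- concatenation of families -/
def LF.cat {s s' : ℕ} {e e' : Fin 4 → ℤ} (F : LF A s e) (G : LF A s' e') :
    LF (A ⊕ A) (s + s') (fun l => 2 * (e l + e' l)) where
  W := Sum.elim (fun a => Had.cat s (F.W a) (G.W a)) (fun a => Had.cat s (F.W a) fun n => - G.W a n)
  L := Sum.elim (fun a n => if n < s then F.L a n else G.L a (n - s))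
    (fun a n => if n < s then F.L a n else G.L a (n - s))
  sg := by
    rintro (a | a) n hn
    · simp only [Sum.elim_inl, Had.cat]
      split_ifs with h
      · exact F.sg a n h
      · exact G.sg a _ (by omega)
    · simp only [Sum.elim_inr, Had.cat]
      split_ifs with h
      · exact F.sg a n h
      · exact (G.sg a _ (by omega)).neg
  cf := fun x => by
    have h := (F.cf x).cat (G.cf x)
    have e1 : ∑ l, (2 * (e l + e' l)) * x l ^ 2 =
        2 * ((∑ l, e l * x l ^ 2) + ∑ l, e' l * x l ^ 2) := by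
      rw [← Finset.sum_add_distrib, Finset.mul_sum]
      exact Finset.sum_congr rfl fun l _ => by ring
    rw [e1]
    refine h.congr ?_
    rintro (a | a) n _
    · simp only [Sum.elim_inl, Had.cat]
      split_ifs <;> rfl
    · simp only [Sum.elim_inr, Had.cat]
      split_ifs
      · rfl
      · ring

/-- reindexing -/
def LF.equiv {S : ℕ} {e : Fin 4 → ℤ} (F : LF A S e) (f : B ≃ A) : LF B S e where
  W := fun b => F.W (f b)
  L := fun b => F.L (f b)
  sg := fun b => F.sg (f b)
  cf := fun x R _ u v huv => by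
    rw [← F.cf x R u v huv]
    exact Equiv.sum_comp f fun a => evs (fun n => F.W a n * x (F.L a n)) S u *
      evs (fun n => F.W a n * x (F.L a n)) S v

/-- the family used in the construction -/
theorem exists_LF {k sb s3 s4 : ℕ} (hb : PUk k sb) (h3 : PUk k s3) (h4 : PUk k s4) :
    Nonempty (LF (Fin (2 ^ (k + 3))) (sb + s3 + s4)
      ![4 * 2 ^ k * sb, 4 * 2 ^ k * sb, 8 * 2 ^ k * s3, 8 * 2 ^ k * s4]) := by
  obtain ⟨F0⟩ := LF.mono hb 0
  obtain ⟨F1⟩ := LF.mono hb 1
  obtain ⟨F2⟩ := LF.mono h3 2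
  obtain ⟨F3⟩ := LF.mono h4 3
  let G1 := (F0.sum F1).cat (F2.sum F2)
  let G2 := G1.cat ((F3.sum F3).sum (F3.sum F3))
  let f : Fin (2 ^ (k + 3)) ≃ (((Fin (2 ^ k) ⊕ Fin (2 ^ k)) ⊕ (Fin (2 ^ k) ⊕ Fin (2 ^ k))) ⊕
      ((Fin (2 ^ k) ⊕ Fin (2 ^ k)) ⊕ (Fin (2 ^ k) ⊕ Fin (2 ^ k)))) :=
    Fintype.equivOfCardEq (by
      simp only [Fintype.card_sum, Fintype.card_fin]
      rw [pow_add]
      ring)
  have G3 := G2.equiv f
  refine ⟨cast ?_ G3⟩
  congr 1
  ext l
  simp only [Pi.add_apply, Fintype.card_fin]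
  fin_cases l <;> simp <;> ring

/-- complementary families give circulants with constant sum of squares -/
theorem CF.entry {q S : ℕ} [NeZero q] {F : A → ℕ → ℤ} {E : ℤ} (h : CF S F E) (d : ZMod q) :
    ∑ a, ∑ n ∈ range S, ∑ m ∈ range S, (F a n * F a m) *
      (if (n : ZMod q) - m = d then 1 else 0) = if d = 0 then E else 0 := by
  let u : AddMonoidAlgebra ℤ (ZMod q) := AddMonoidAlgebra.single 1 1
  let v : AddMonoidAlgebra ℤ (ZMod q) := AddMonoidAlgebra.single (-1) 1
  have huv : u * v = 1 := by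
    change AddMonoidAlgebra.single (1 : ZMod q) (1 : ℤ) * AddMonoidAlgebra.single (-1) 1 = 1
    rw [AddMonoidAlgebra.single_mul_single, add_neg_cancel, mul_one]
    rfl
  have h1 := h (AddMonoidAlgebra ℤ (ZMod q)) u v huv
  have h2 : ∀ n m : ℕ, u ^ n * v ^ m = AddMonoidAlgebra.single ((n : ZMod q) - m) (1 : ℤ) := by
    intro n m
    change AddMonoidAlgebra.single (1 : ZMod q) (1 : ℤ) ^ n *
      AddMonoidAlgebra.single (-1 : ZMod q) (1 : ℤ) ^ m = _
    rw [AddMonoidAlgebra.single_pow, AddMonoidAlgebra.single_pow,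
      AddMonoidAlgebra.single_mul_single, one_pow, one_pow, mul_one]
    congr 1
    rw [nsmul_eq_mul, nsmul_eq_mul, mul_one, mul_neg, mul_one, sub_eq_add_neg]
  have h3 : ∀ a, evs (F a) S u * evs (F a) S v = ∑ n ∈ range S, ∑ m ∈ range S,
      (F a n * F a m) • AddMonoidAlgebra.single ((n : ZMod q) - m) (1 : ℤ) := by
    intro a
    unfold evs
    rw [Finset.sum_mul_sum]
    refine Finset.sum_congr rfl fun n _ => Finset.sum_congr rfl fun m _ => ?_
    rw [← h2, zsmul_eq_mul, Int.cast_mul]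
    ring
  have h4 := congrArg (fun x : AddMonoidAlgebra ℤ (ZMod q) => x.coeff d) h1
  simp only [h3] at h4
  have h5 : ∀ (z : ℤ) (n m : ℕ), (z • AddMonoidAlgebra.single ((n : ZMod q) - m) (1 : ℤ)).coeff d =
      z * (if (n : ZMod q) - m = d then 1 else 0) := by
    intro z n m
    rw [AddMonoidAlgebra.coeff_smul_apply, AddMonoidAlgebra.coeff_single, Finsupp.single_apply,
      smul_eq_mul]
  simp only [AddMonoidAlgebra.coeff_sum, Finsupp.finsetSum_apply, h5] at h4
  rw [h4, AddMonoidAlgebra.intCast_def, AddMonoidAlgebra.coeff_single, Finsupp.single_apply]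
  by_cases hd : d = 0
  · rw [if_pos hd, if_pos hd.symm]
    rfl
  · rw [if_neg hd, if_neg (Ne.symm hd)]

theorem CF.circ {q S : ℕ} [NeZero q] {F : A → ℕ → ℤ} {E : ℤ} (h : CF S F E) :
    ∑ a, circulant (fS q S (F a)) * (circulant (fS q S (F a)))ᵀ =
      E • (1 : Matrix (ZMod q) (ZMod q) ℤ) := by
  ext i j
  rw [Matrix.sum_apply]
  have h1 : ∀ a, (circulant (fS q S (F a)) * (circulant (fS q S (F a)))ᵀ) i j =
      ∑ n ∈ range S, ∑ m ∈ range S,
        (F a n * F a m) * (if (n : ZMod q) - m = i - j then 1 else 0) := by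
    intro a
    rw [Matrix.mul_apply, ← corr (F a) i j]
    rfl
  rw [Finset.sum_congr rfl fun a _ => h1 a, h.entry, Matrix.smul_apply, Matrix.one_apply,
    smul_eq_mul]
  by_cases hij : i = j
  · rw [if_pos (by rw [hij, sub_self]), if_pos hij, mul_one]
  · rw [if_neg (fun h => hij (sub_eq_zero.1 h)), if_neg hij, mul_zero]

end Pool.Agent.K1H34.Had
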