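import Pool.Agent.K1H34.Had.PH
import Pool.Agent.K1H34.Had.Growth
import Pool.Agent.K1H34.Had.ChooseP

/-!
# Almost complete partial Hadamard matrices in all large orders divisible by four
-/

set_option autoImplicit false

namespace Pool.Agent.K1H34.Had

open Finset Filter
open Pool.Agent.TH445.OI (evN ev_pow)
open Pool.Agent.W851.Had (tow)
open Pool.Agent.H108R3.Had (PUk)

/-- the construction, with numbers -/
theorem phad_step {k p n N t1 i sb s4 s3 m : ℕ} (hN : N = NN k) (hp : p.Prime) (h4 : p % 4 = 1)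
    (hPU : ∀ s ≤ n, PUk k s) (hn : n = 4 * (N * t1 + i)) (hi : i < N)
    (ht1 : 2 * t1 = (p + 1) * sb + 4 * s4)
    (hm : m + p * N * (2 * s3 + 2 * s4 + 1) = 2 * N * sb + 8 * N * s4 + 4 * i)
    (hH : Pool.Agent.TH394.HadOrder m) : PHad (p * m) n := by
  have hp5 : 5 ≤ p := by
    have := hp.two_le
    omega
  have hNpos : 0 < N := by omega
  have hsb : sb ≤ t1 := by nlinarith
  have hs4 : 2 * s4 ≤ t1 := by nlinarith
  have htn : t1 ≤ n := by nlinarith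
  have hX : 2 * N * sb + 8 * N * s4 + 4 * i ≤ n := by
    have h2 : 2 * (N * t1) = p * (N * sb) + N * sb + 4 * (N * s4) := by
      calc 2 * (N * t1) = N * (2 * t1) := by ring
        _ = N * ((p + 1) * sb + 4 * s4) := by rw [ht1]
        _ = _ := by ring
    have h4 : N * sb ≤ p * (N * sb) := Nat.le_mul_of_pos_left _ (by omega)
    have h5 : 2 * N * sb + 8 * N * s4 + 4 * i = 2 * (N * sb) + 8 * (N * s4) + 4 * i := by ring
    rw [h5]
    omega
  have hs3 : s3 ≤ n := by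
    have h1 : s3 ≤ p * N * (2 * s3 + 2 * s4 + 1) := by
      have h2 : 1 ≤ p * N := Nat.one_le_iff_ne_zero.2 (by positivity)
      nlinarith
    omega
  obtain ⟨O⟩ := exists_OD (i := i) (hPU sb (by omega)) (hPU s3 hs3) (hPU s4 (by omega))
    (by rw [← hN]; exact hi)
  rw [← hN] at O
  obtain ⟨B, hB⟩ := Pool.Agent.Y341.Had.paley_core hp.isPrimePow h4
  have hm' : (m : ℤ) + p * N * (2 * s3 + 2 * s4 + 1) = 2 * N * sb + 8 * N * s4 + 4 * i := by
    exact_mod_cast hm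
  have h1 := phad_main O rfl hB (r := m) (m := m) (by
    simp only [Matrix.cons_val]
    linear_combination hm') (phad_had hH) (by
    have h2 : 8 * N * s4 + 4 * i ≤ (p + 1) * (N * (2 * s3 + 2 * s4 + 1)) := by
      have h3 : 6 * (N * (2 * s3 + 2 * s4 + 1)) ≤ (p + 1) * (N * (2 * s3 + 2 * s4 + 1)) :=
        Nat.mul_le_mul_right _ (by omega)
      have h4 : 0 ≤ N * s3 := Nat.zero_le _
      nlinarith
    have h5 : p * N * (2 * s3 + 2 * s4 + 1) = p * (N * (2 * s3 + 2 * s4 + 1)) := by ring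
    nlinarith)
  have h2 : p * (N * (2 * (sb + s3 + s4) + 1)) + m = n := by
    have h3 : 2 * (N * t1) = N * ((p + 1) * sb + 4 * s4) := by rw [← ht1]; ring
    rw [hn]
    nlinarith
  rw [h2] at h1
  exact h1

/-- the decomposition of `t1` -/
theorem split_t1 {p t1 : ℕ} (h4 : p % 4 = 1) (h : p + 1 ≤ t1) : ∃ sb s4 : ℕ,
    2 * t1 = (p + 1) * sb + 4 * s4 ∧ 2 * s4 + 1 ≤ p := by
  obtain ⟨u, hu⟩ : ∃ u, p = 4 * u + 1 := ⟨p / 4, by omega⟩
  obtain ⟨w, hw⟩ : ∃ w, w = 2 * u + 1 := ⟨_, rfl⟩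
  have hpw : p + 1 = 2 * w := by omega
  have hw0 : 0 < w := by omega
  obtain ⟨s, hs⟩ : ∃ s, s = t1 / w := ⟨_, rfl⟩
  obtain ⟨r, hr⟩ : ∃ r, r = t1 % w := ⟨_, rfl⟩
  have hdiv : w * s + r = t1 := by rw [hs, hr]; exact Nat.div_add_mod t1 w
  have hrw : r < w := by rw [hr]; exact Nat.mod_lt _ hw0
  have hs1 : 1 ≤ s := by
    by_contra hcon
    have : s = 0 := by omega
    rw [this] at hdiv
    omega
  rcases Nat.even_or_odd' r with ⟨a, ha | ha⟩
  · exact ⟨s, a, by rw [hpw, ← hdiv, ha]; ring, by omega⟩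
  · refine ⟨s - 1, a + u + 1, ?_, by omega⟩
    obtain ⟨s', rfl⟩ : ∃ s', s = s' + 1 := ⟨s - 1, by omega⟩
    rw [Nat.add_sub_cancel, hpw, ← hdiv, ha, hw]
    ring

theorem NN_dvd (k : ℕ) : 4 ∣ NN k := by
  have h : 2 ≤ 5 * 2 ^ (k + 3) - 1 := by
    have : 1 ≤ 2 ^ (k + 3) := Nat.one_le_two_pow
    omega
  exact pow_dvd_pow 2 h

section reals

variable {p N sb s4 i y n : ℝ}

theorem ten_aux (hp : 5 ≤ p) (hN : 1 ≤ N) :
    (p ^ 2 * N + 1) * (p + 1) + 4 * (p * N) ≤ 10 * (p ^ 3 * N) := by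
  have h2 : p ≤ p ^ 2 := by nlinarith
  have h3 : p ^ 2 ≤ p ^ 3 := by nlinarith [sq_nonneg p]
  have e1 : 1 ≤ p ^ 3 * N := by nlinarith
  have e2 : p ≤ p ^ 3 * N := by nlinarith
  have e3 : p ^ 2 * N ≤ p ^ 3 * N := by nlinarith
  have e4 : p * N ≤ p ^ 3 * N := by nlinarith
  have e5 : (p ^ 2 * N + 1) * (p + 1) + 4 * (p * N) = p ^ 3 * N + p ^ 2 * N + p + 1 + 4 * (p * N) := by
    ring
  rw [e5]
  linarith

theorem py_eq (hy : y + (p * N * (2 * s4 + 1) + 1) = 2 * N * sb + 8 * N * s4 + 4 * i)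
    (hn : n = 2 * N * sb * (p + 1) + 8 * N * s4 + 4 * i) :
    n - p * y = 2 * (N * sb) + N * (2 * s4 + 1) * (p - 2) ^ 2 + 4 * ((p - 1) * (N - i)) + p := by
  linear_combination hn - p * hy

theorem py_le (hp : 5 ≤ p) (hN : 1 ≤ N) (hsb : 0 ≤ sb) (hs4 : 0 ≤ s4) (hi : i ≤ N)
    (hy : y + (p * N * (2 * s4 + 1) + 1) = 2 * N * sb + 8 * N * s4 + 4 * i)
    (hn : n = 2 * N * sb * (p + 1) + 8 * N * s4 + 4 * i) : p * y ≤ n := by
  have h := py_eq hy hn
  have h1 : 0 ≤ N * sb := by positivity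
  have h2 : 0 ≤ N * (2 * s4 + 1) * (p - 2) ^ 2 := by positivity
  have h3 : 0 ≤ (p - 1) * (N - i) := mul_nonneg (by linarith) (by linarith)
  linarith

theorem py_ge (hp : 5 ≤ p) (hN : 1 ≤ N) (hs4 : 0 ≤ s4) (hi : 0 ≤ i) (hs4p : 2 * s4 + 1 ≤ p)
    (hy : y + (p * N * (2 * s4 + 1) + 1) = 2 * N * sb + 8 * N * s4 + 4 * i)
    (hn : n = 2 * N * sb * (p + 1) + 8 * N * s4 + 4 * i) :
    n ≤ p * (y + 1) + n / (p + 1) + p ^ 3 * N := by
  have h : n - p * (y + 1) = 2 * N * sb - (p - 1) * (8 * (N * s4) + 4 * i) +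
      p ^ 2 * N * (2 * s4 + 1) := by linear_combination hn - p * hy
  have h1 : 0 ≤ N * s4 := by positivity
  have h5 : 2 * N * sb ≤ n / (p + 1) := by
    rw [le_div_iff₀ (by linarith), hn]
    linarith
  have h6 : 0 ≤ (p - 1) * (8 * (N * s4) + 4 * i) := mul_nonneg (by linarith) (by linarith)
  have h8 : p ^ 2 * N * (2 * s4 + 1) ≤ p ^ 2 * N * p := by
    apply mul_le_mul_of_nonneg_left hs4p (by positivity)
  have h9 : p ^ 2 * N * p = p ^ 3 * N := by ring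
  linarith

theorem sb_small {R : ℝ} (hp : 5 ≤ p) (hN : 1 ≤ N) (hs4 : 0 ≤ s4) (hi : 0 ≤ i) (hiN : i ≤ N)
    (hs4p : 2 * s4 + 1 ≤ p)
    (hn : n = 2 * N * sb * (p + 1) + 8 * N * s4 + 4 * i)
    (h : 2 * N * sb + 8 * N * s4 + 4 * i ≤ p * N * (2 * s4 + 1) + 1 + R) :
    n ≤ 10 * (p ^ 3 * N) + R * (p + 1) := by
  have h1 : 0 ≤ N * s4 := by positivity
  have h2 : p * N * (2 * s4 + 1) ≤ p * N * p := mul_le_mul_of_nonneg_left hs4p (by positivity)
  have h3 : 2 * N * sb ≤ p ^ 2 * N + 1 + R := by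
    have : p * N * p = p ^ 2 * N := by ring
    linarith
  have h4 : 2 * N * sb * (p + 1) ≤ (p ^ 2 * N + 1 + R) * (p + 1) :=
    mul_le_mul_of_nonneg_right h3 (by linarith)
  have h5 : 8 * N * s4 + 4 * i ≤ 4 * (p * N) := by nlinarith
  have h6 := ten_aux hp hN
  rw [hn]
  linarith

end reals

theorem main_phad (A : ℕ) : ∃ n₀ : ℕ, ∀ n : ℕ, n₀ ≤ n → 4 ∣ n →
    ∃ r : ℕ, (n : ℝ) - n / Real.log n ^ A ≤ r ∧ PHad r n := by
  obtain ⟨C, hC, hpu⟩ := Pool.Agent.W851.Had.main_pu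
  obtain ⟨n1, hgr⟩ := growth C hC
  obtain ⟨n2, hcp⟩ := choose_p (A + 2)
  obtain ⟨y0, hap⟩ := prime_ap (A + 2) (A + 7)
  obtain ⟨n3, h3⟩ := evN _ (ev_pow (4 * A + 20) 16 (1 / 2) (by norm_num))
  obtain ⟨n4, h4⟩ := evN _ (Real.tendsto_log_atTop.eventually_ge_atTop (2 ^ (A + 10)))
  refine ⟨n1 + n2 + n3 + n4 + y0 ^ 2 + 4, fun n hn h4n => ?_⟩
  obtain ⟨L, hL⟩ : ∃ L, L = Real.log n := ⟨_, rfl⟩
  have hL10 : (2 : ℝ) ^ (A + 10) ≤ L := by rw [hL]; exact h4 n (by omega)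
  have hpow : (1 : ℝ) ≤ 2 ^ A := one_le_pow₀ (by norm_num)
  have hL1024 : 1024 ≤ L := by
    refine le_trans ?_ hL10
    rw [pow_add]; nlinarith
  have hL0 : 0 < L := by linarith
  have hL1 : 1 ≤ L := by linarith
  have hsq := h3 n (by omega)
  rw [← Real.sqrt_eq_rpow, ← hL] at hsq
  obtain ⟨R, hR⟩ : ∃ R, R = Real.sqrt n := ⟨_, rfl⟩
  rw [← hR] at hsq
  have hn0 : (0 : ℝ) < n := by exact_mod_cast (by omega : 0 < n)
  have hRR : R * R = n := by rw [hR]; exact Real.mul_self_sqrt hn0.le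
  have hR0 : 0 < R := by rw [hR]; exact Real.sqrt_pos.2 hn0
  -- gadgets
  obtain ⟨m0, hm0, hNL⟩ := hgr n (by omega)
  obtain ⟨k, hk⟩ : ∃ k, k = C ^ (m0 + 1) := ⟨_, rfl⟩
  obtain ⟨N, hN⟩ : ∃ N, N = NN k := ⟨_, rfl⟩
  rw [← hk, ← hN, ← hL] at hNL
  have hPU : ∀ s ≤ n, PUk k s := fun s hs => hpu m0 s k (hs.trans hm0) (by rw [hk])
  have hN4 : 4 ∣ N := by rw [hN]; exact NN_dvd k
  have hNpos : 0 < N := by rw [hN]; unfold NN; positivity
  have hN1 : (1 : ℝ) ≤ N := by exact_mod_cast hNpos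
  -- the prime p
  obtain ⟨p, hp, hp4, hpL, hpU, hpn⟩ := hcp n (by omega)
  rw [← hL] at hpL hpU
  have hp5 : 5 ≤ p := by
    have := hp.two_le
    omega
  have hp0 : (0 : ℝ) < p := by exact_mod_cast hp.pos
  -- powers of L
  have hpNL : (p : ℝ) * N ≤ L ^ (A + 6) := by
    calc (p : ℝ) * N ≤ L ^ (A + 2 + 3) * L := by gcongr
      _ = L ^ (A + 6) := by rw [← pow_succ]
  have hp3N : (p : ℝ) ^ 3 * N ≤ L ^ (3 * A + 16) := by
    calc (p : ℝ) ^ 3 * N ≤ (L ^ (A + 2 + 3)) ^ 3 * L := by gcongr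
      _ = L ^ (3 * A + 16) := by rw [← pow_mul, ← pow_succ]; congr 1; ring
  -- t, t1, i
  obtain ⟨t, ht⟩ := h4n
  obtain ⟨t1, ht1⟩ : ∃ t1, t1 = t / N := ⟨_, rfl⟩
  obtain ⟨i, hi'⟩ : ∃ i, i = t % N := ⟨_, rfl⟩
  have hti : N * t1 + i = t := by rw [ht1, hi']; exact Nat.div_add_mod t N
  have hi : i < N := by rw [hi']; exact Nat.mod_lt _ hNpos
  have hnt : n = 4 * (N * t1 + i) := by rw [hti]; exact ht
  have hiR : (i : ℝ) ≤ N := by exact_mod_cast hi.le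
  have hntR : (n : ℝ) = 4 * (N * t1 + i) := by exact_mod_cast hnt
  have hbig : 16 * L ^ (4 * A + 20) * R ≤ n := by rw [← hRR]; gcongr
  have hR16 : 16 ≤ R := by
    refine le_trans ?_ hsq
    have : 1 ≤ L ^ (4 * A + 20) := one_le_pow₀ hL1
    linarith
  have hL16 : L ^ (A + 6) ≤ L ^ (4 * A + 20) := pow_le_pow_right₀ hL1 (by omega)
  have hL17 : L ^ (3 * A + 16) ≤ L ^ (4 * A + 20) := pow_le_pow_right₀ hL1 (by omega)
  have hL6 : 1 ≤ L ^ (A + 6) := one_le_pow₀ hL1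
  have ht1p : p + 1 ≤ t1 := by
    have h5 : (p : ℝ) + 1 ≤ t1 := by
      by_contra hcon
      have h6 : (t1 : ℝ) < p + 1 := not_le.1 hcon
      have h7 : (n : ℝ) ≤ 4 * (N * (p + 1) + N) := by rw [hntR]; nlinarith
      have h8 : (N : ℝ) ≤ p * N := by
        have : (1 : ℝ) ≤ p := by exact_mod_cast hp.one_lt.le
        nlinarith
      have h9 : (n : ℝ) ≤ 12 * L ^ (A + 6) := by nlinarith
      nlinarith
    exact_mod_cast h5
  obtain ⟨sb, s4, hsplit, hs4⟩ := split_t1 hp4 ht1p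
  have hsplitR : 2 * (t1 : ℝ) = (p + 1) * sb + 4 * s4 := by exact_mod_cast hsplit
  have hs4R : 2 * (s4 : ℝ) + 1 ≤ p := by exact_mod_cast hs4
  have hs40 : (0 : ℝ) ≤ s4 := Nat.cast_nonneg _
  have hsb0 : (0 : ℝ) ≤ sb := Nat.cast_nonneg _
  have hi0 : (0 : ℝ) ≤ i := Nat.cast_nonneg _
  -- n in terms of the parameters
  have hnpar : (n : ℝ) = 2 * N * sb * (p + 1) + 8 * N * s4 + 4 * i := by
    rw [hntR]; linear_combination 2 * N * hsplitR
  have hp5R : (5 : ℝ) ≤ p := by exact_mod_cast hp5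
  have hNp0 : (0 : ℝ) ≤ N * p := by positivity
  have hbL : 0 < L ^ (4 * A + 20) := by positivity
  have hmu : p * N * (2 * s4 + 1) + 1 ≤ 2 * N * sb + 8 * N * s4 + 4 * i := by
    have h5 : (p : ℝ) * N * (2 * s4 + 1) + 1 ≤ 2 * N * sb + 8 * N * s4 + 4 * i := by
      by_contra hcon
      have h6 := sb_small (R := 0) hp5R hN1 hs40 hi0 hiR hs4R hnpar (by linarith [not_le.1 hcon])
      have h7 : 16 * L ^ (4 * A + 20) * 1 ≤ 16 * L ^ (4 * A + 20) * R := by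
        apply mul_le_mul_of_nonneg_left _ (by positivity)
        linarith
      linarith
    exact_mod_cast h5
  obtain ⟨y, hy⟩ : ∃ y, y + (p * N * (2 * s4 + 1) + 1) = 2 * N * sb + 8 * N * s4 + 4 * i :=
    ⟨2 * N * sb + 8 * N * s4 + 4 * i - (p * N * (2 * s4 + 1) + 1), by omega⟩
  have hyR : (y : ℝ) + (p * N * (2 * s4 + 1) + 1) = 2 * N * sb + 8 * N * s4 + 4 * i := by
    exact_mod_cast hy
  -- y is large
  have hyR2 : R ≤ y := by
    by_contra hcon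
    have h6 := sb_small (R := R) hp5R hN1 hs40 hi0 hiR hs4R hnpar (by linarith [not_le.1 hcon])
    have h9 : R * (p + 1) ≤ R * (2 * L ^ (4 * A + 20)) := by
      apply mul_le_mul_of_nonneg_left _ hR0.le
      have : (p : ℝ) ≤ p * N := by nlinarith
      linarith
    have h12 : L ^ (4 * A + 20) * 1 ≤ L ^ (4 * A + 20) * R := by
      apply mul_le_mul_of_nonneg_left _ hbL.le
      linarith
    linarith
  have hy0 : y0 ≤ y := by
    have h5 : (y0 : ℝ) ≤ R := by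
      rw [hR]
      apply Real.le_sqrt_of_sq_le
      exact_mod_cast (by omega : y0 ^ 2 ≤ n)
    exact_mod_cast h5.trans hyR2
  obtain ⟨ℓ, hℓ⟩ : ∃ ℓ, ℓ = Real.log y := ⟨_, rfl⟩
  have hlL : L / 2 ≤ ℓ := by
    rw [hℓ, hL, ← Real.log_sqrt hn0.le, ← hR]
    exact Real.log_le_log hR0 hyR2
  have hl0 : 0 < ℓ := by linarith
  -- the modulus
  obtain ⟨q, hq⟩ : ∃ q, q = 2 * (p * N) := ⟨_, rfl⟩
  have hq1 : 1 ≤ q := by
    have := Nat.mul_pos hp.pos hNpos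
    omega
  have hqR : (q : ℝ) ≤ ℓ ^ (A + 7) := by
    have h5 : (q : ℝ) ≤ 2 * L ^ (A + 6) := by rw [hq]; push_cast; linarith
    refine h5.trans ?_
    have h6 : (L / 2) ^ (A + 7) ≤ ℓ ^ (A + 7) := pow_le_pow_left₀ (by linarith) hlL _
    refine le_trans ?_ h6
    rw [div_pow, le_div_iff₀ (by positivity), pow_succ L (A + 6)]
    have h7 : (2 : ℝ) ^ (A + 7) * 2 ≤ L := by
      rw [← pow_succ]
      exact (pow_le_pow_right₀ (by norm_num) (by omega)).trans hL10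
    have h8 : 0 < L ^ (A + 6) := by positivity
    nlinarith
  have hmod : y + 1 + p * (N * (2 * (sb + s4) + 1)) = n := by
    have h5 : 2 * (N * t1) = N * ((p + 1) * sb + 4 * s4) := by rw [← hsplit]; ring
    have h6 : y + 1 + p * (N * (2 * (sb + s4) + 1)) =
        (y + (p * N * (2 * s4 + 1) + 1)) + 2 * (p * N * sb) := by ring
    rw [h6, hy, hnt]
    nlinarith
  have hy4 : y % 4 = 3 := by
    obtain ⟨N', hN'⟩ := hN4
    have h5 : p * N * (2 * s4 + 1) = 4 * (p * N' * (2 * s4 + 1)) := by rw [hN']; ring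
    have h6 : 2 * N * sb + 8 * N * s4 + 4 * i = 4 * (2 * N' * sb + 8 * N' * s4 + i) := by
      rw [hN']; ring
    rw [h5, h6] at hy
    omega
  have hcop : (y % q).Coprime q := by
    have h5 : y.Coprime q := by
      rw [hq]
      apply Nat.Coprime.mul_right
      · rw [Nat.coprime_two_right]
        exact Nat.odd_iff.2 (by omega)
      · apply Nat.Coprime.mul_right
        · rw [Nat.coprime_comm, hp.coprime_iff_not_dvd]
          intro hdvd
          apply hpn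
          have h6 : n - 1 = y + p * (N * (2 * (sb + s4) + 1)) := by omega
          rw [h6]
          exact dvd_add hdvd (dvd_mul_right _ _)
        · rw [hN]
          unfold NN
          apply Nat.Coprime.pow_right
          rw [Nat.coprime_two_right]
          exact Nat.odd_iff.2 (by omega)
    unfold Nat.Coprime at h5 ⊢
    rw [← Nat.gcd_rec, Nat.gcd_comm]
    exact h5
  obtain ⟨P, hP, hPc, hPy, hPL⟩ := hap y hy0 q hq1 (by rw [← hℓ]; exact hqR) (y % q)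
    (Nat.mod_lt _ hq1) hcop
  rw [← hℓ] at hPL
  have hPy' : P ≡ y [MOD q] := hPc.trans (Nat.mod_modEq y q)
  obtain ⟨s3, hs3⟩ := (Nat.modEq_iff_dvd' hPy).1 hPy'
  have hyP : y = P + q * s3 := by omega
  have hP4 : P % 4 = 3 := by
    obtain ⟨N', hN'⟩ := hN4
    have h5 : q * s3 = 4 * (2 * p * N' * s3) := by rw [hq, hN']; ring
    rw [h5] at hyP
    omega
  have hH := Pool.Agent.Y341.Had.had_paley_one hP hP4
  have hm : (P + 1) + p * N * (2 * s3 + 2 * s4 + 1) = 2 * N * sb + 8 * N * s4 + 4 * i := by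
    rw [← hy, hyP, hq]; ring
  refine ⟨p * (P + 1), ?_, phad_step hN hp hp4 hPU hnt hi hsplit hm hH⟩
  -- the number of rows
  push_cast
  have hyn : (p : ℝ) * y ≤ n := py_le hp5R hN1 hsb0 hs40 hiR hyR hnpar
  have hpy : (n : ℝ) ≤ p * (y + 1) + n / (p + 1) + p ^ 3 * N :=
    py_ge hp5R hN1 hs40 hi0 hs4R hyR hnpar
  have hloss1 : (n : ℝ) / (p + 1) ≤ n / L ^ (A + 2) := by
    apply div_le_div_of_nonneg_left hn0.le (by positivity) (by linarith)
  have hloss2 : (p : ℝ) * (y / ℓ ^ (A + 2)) ≤ 2 ^ (A + 2) * (n / L ^ (A + 2)) := by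
    have h5 : (L / 2) ^ (A + 2) ≤ ℓ ^ (A + 2) := pow_le_pow_left₀ (by linarith) hlL _
    calc (p : ℝ) * (y / ℓ ^ (A + 2)) = (p * y) / ℓ ^ (A + 2) := by ring
      _ ≤ n / (L / 2) ^ (A + 2) := by gcongr
      _ = _ := by rw [div_pow]; field_simp
  have hPL' : (p : ℝ) * (y - y / ℓ ^ (A + 2)) ≤ p * P := mul_le_mul_of_nonneg_left hPL hp0.le
  obtain ⟨T, hT⟩ : ∃ T, T = (n : ℝ) / L ^ (A + 2) := ⟨_, rfl⟩
  have hT1 : (n : ℝ) / L ^ A = T * L ^ 2 := by
    rw [hT, pow_add]; field_simp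
  have hT2 : L ^ (3 * A + 16) ≤ T := by
    rw [hT, le_div_iff₀ (by positivity), ← pow_add]
    have h5 : L ^ (3 * A + 16 + (A + 2)) ≤ L ^ (4 * A + 20) := pow_le_pow_right₀ hL1 (by omega)
    have h6 : 0 < L ^ (4 * A + 20) := by positivity
    nlinarith
  have hT0 : 0 < T := by rw [hT]; positivity
  have hL22 : (2 : ℝ) ^ (A + 2) + 2 ≤ L ^ 2 := by
    have h5 : (2 : ℝ) ^ (A + 2) ≤ L := (pow_le_pow_right₀ (by norm_num) (by omega)).trans hL10
    nlinarith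
  rw [← hL, hT1]
  rw [← hT] at hloss1 hloss2
  have hfin : (2 : ℝ) ^ (A + 2) * T + 2 * T ≤ T * L ^ 2 := by nlinarith
  have h9 : (p : ℝ) * (y - y / ℓ ^ (A + 2)) = p * y - p * (y / ℓ ^ (A + 2)) := by ring
  linarith

end Pool.Agent.K1H34.Had
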