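import Pool.Agent.TH445.OI.A3

/-!
# Primes of a residue class in intervals of relative length a power of the logarithm
-/

set_option autoImplicit false

namespace Pool.Agent.K1H34.Had

open Finset Filter
open scoped ArithmeticFunction.vonMangoldt
open Pool.Agent.TH445.OI (evN ev_pow sw_psi)

theorem psi1_eq (N : ℕ) : H343E.psi1 N = Chebyshev.psi (N : ℝ) := by
  unfold H343E.psi1 Chebyshev.psi
  rw [Nat.floor_natCast]
  rfl

theorem psi_pnt (U : ℕ) : ∃ C : ℝ, 0 < C ∧ ∃ N₁ : ℕ, ∀ N : ℕ, N₁ ≤ N →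
    |H343E.psi1 N - N| ≤ C * (N / Real.log N ^ U) := by
  obtain ⟨C, hC, N₁, h⟩ := Pool.Agent.H442R2.EHI.PntErrAux.largeU U
  obtain ⟨x1, h1⟩ := evN _ (ev_pow U 2 1 one_pos)
  refine ⟨C + 1, by linarith, max (max N₁ x1) 2, fun N hN => ?_⟩
  have hN1 : N₁ ≤ N := le_trans (le_trans (le_max_left _ _) (le_max_left _ _)) hN
  have hN2 : x1 ≤ N := le_trans (le_trans (le_max_right _ _) (le_max_left _ _)) hN
  have hN3 : 2 ≤ N := le_trans (le_max_right _ _) hN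
  have hl : 0 < Real.log N := Real.log_pos (by exact_mod_cast (by omega : 1 < N))
  have h2 := h1 N hN2
  rw [Real.rpow_one] at h2
  have h3 : 2 ≤ (N : ℝ) / Real.log N ^ U := by rw [le_div_iff₀ (by positivity)]; exact h2
  rw [psi1_eq]
  refine (h N hN1).trans ?_
  linarith

theorem psiAP_diff (a b q c : ℕ) (hab : a ≤ b) : H343E.psiAP b q c - H343E.psiAP a q c =
    ∑ n ∈ (Ioc a b).filter (fun n => n ≡ c [MOD q]), Λ n := by
  unfold H343E.psiAP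
  rw [Nat.floor_natCast, Nat.floor_natCast, sum_filter, sum_filter, sum_filter]
  have e : ∀ m : ℕ, Icc 1 m = Ioc 0 m := fun m => rfl
  rw [e, e, ← sum_Ioc_consecutive (fun n => if n ≡ c [MOD q] then Λ n else 0) (Nat.zero_le a) hab]
  ring

theorem nonprime_le (a b q c : ℕ) (h : ∀ n ∈ Ioc a b, n ≡ c [MOD q] → ¬ n.Prime) :
    ∑ n ∈ (Ioc a b).filter (fun n => n ≡ c [MOD q]), Λ n ≤
      Chebyshev.psi (b : ℝ) - Chebyshev.theta (b : ℝ) := by
  have h1 : Chebyshev.psi (b : ℝ) - Chebyshev.theta (b : ℝ) =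
      ∑ n ∈ (Ioc 0 b).filter (fun n => ¬ n.Prime), Λ n := by
    unfold Chebyshev.psi Chebyshev.theta
    rw [Nat.floor_natCast, ← Finset.sum_filter_add_sum_filter_not (Ioc 0 b) (fun n => n.Prime)]
    have : ∑ n ∈ (Ioc 0 b).filter (fun n => n.Prime), Λ n =
        ∑ n ∈ (Ioc 0 b).filter (fun n => n.Prime), Real.log n :=
      sum_congr rfl fun n hn => ArithmeticFunction.vonMangoldt_apply_prime (mem_filter.1 hn).2
    rw [this]
    ring
  rw [h1]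
  refine sum_le_sum_of_subset_of_nonneg ?_ fun n _ _ => ArithmeticFunction.vonMangoldt_nonneg
  intro n hn
  rw [mem_filter, mem_Ioc] at hn
  rw [mem_filter, mem_Ioc]
  exact ⟨⟨by omega, hn.1.2⟩, h n (mem_Ioc.2 hn.1) hn.2⟩

/-- primes of a residue class in intervals of relative length a power of the logarithm -/
theorem prime_ap (A K : ℕ) : ∃ y0 : ℕ, ∀ y : ℕ, y0 ≤ y → ∀ q : ℕ, 1 ≤ q →
    (q : ℝ) ≤ Real.log y ^ K → ∀ c : ℕ, c < q → c.Coprime q →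
    ∃ P : ℕ, P.Prime ∧ P ≡ c [MOD q] ∧ P ≤ y ∧ (y : ℝ) - y / Real.log y ^ A ≤ P := by
  obtain ⟨U, hU⟩ : ∃ U, U = (A + 1) + K + 1 := ⟨_, rfl⟩
  obtain ⟨y1, h1⟩ := sw_psi U (K + 1)
  obtain ⟨C, hC, N1, hpnt⟩ := psi_pnt U
  obtain ⟨C1, hC1⟩ := Chebyshev.psi_sub_theta_le_mul_sqrt
  obtain ⟨x1, hx1⟩ := evN _ (ev_pow (A + 1 + K) (4 * (|C1| + 1)) (1 / 2) (by norm_num))
  obtain ⟨x2, hx2⟩ := evN _ (Real.tendsto_log_atTop.eventually_ge_atTop
    (max (2 ^ (K + 1)) (4 * ((C + 1) * (1 + 2 ^ U)))))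
  refine ⟨2 * (y1 + N1) + x1 + x2 + 4, fun y hy q hq hqK c hc hcop => ?_⟩
  by_contra hcon
  push Not at hcon
  obtain ⟨ℓ, hℓ⟩ : ∃ ℓ, ℓ = Real.log y := ⟨_, rfl⟩
  have e2 := hx2 y (by omega)
  rw [← hℓ] at e2 hqK
  have hlK : (2 : ℝ) ^ (K + 1) ≤ ℓ := (le_max_left _ _).trans e2
  have hlC : 4 * ((C + 1) * (1 + 2 ^ U)) ≤ ℓ := (le_max_right _ _).trans e2
  have hl2 : 2 ≤ ℓ := by
    refine le_trans ?_ hlK
    have : (1 : ℝ) ≤ 2 ^ K := one_le_pow₀ (by norm_num)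
    rw [pow_succ]; linarith
  have hl0 : 0 < ℓ := by linarith
  have hyR : (4 : ℝ) ≤ y := by exact_mod_cast (by omega : 4 ≤ y)
  have hy0 : (0 : ℝ) < y := by linarith
  obtain ⟨z, hz⟩ : ∃ z, z = ⌊(y : ℝ) / ℓ ^ (A + 1)⌋₊ := ⟨_, rfl⟩
  have hlA1 : 2 ≤ ℓ ^ (A + 1) := by
    rw [pow_succ]
    have : 1 ≤ ℓ ^ A := one_le_pow₀ (by linarith)
    nlinarith
  have hzle : (z : ℝ) ≤ y / ℓ ^ (A + 1) := by
    rw [hz]; exact Nat.floor_le (by positivity)
  have hzge : (y : ℝ) / ℓ ^ (A + 1) - 1 ≤ z := by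
    rw [hz]; exact (Nat.sub_one_lt_floor _).le
  have hz2 : (z : ℝ) ≤ y / 2 := hzle.trans (div_le_div_of_nonneg_left hy0.le (by norm_num) hlA1)
  have hzy : z ≤ y := by
    have : (z : ℝ) ≤ y := by linarith
    exact_mod_cast this
  obtain ⟨w, hw⟩ : ∃ w, w = y - z := ⟨_, rfl⟩
  have hwR : (w : ℝ) = y - z := by rw [hw, Nat.cast_sub hzy]
  have hw2 : (y : ℝ) / 2 ≤ w := by rw [hwR]; linarith
  have hwy : w ≤ y := by omega
  have hwyR : (w : ℝ) ≤ y := by exact_mod_cast hwy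
  have hw2' : y ≤ 2 * w := by
    have : (y : ℝ) ≤ 2 * w := by linarith
    exact_mod_cast this
  -- no primes
  have hno : ∀ n ∈ Ioc w y, n ≡ c [MOD q] → ¬ n.Prime := by
    intro n hn hnc hp
    rw [mem_Ioc] at hn
    have := hcon n hp hnc hn.2
    rw [← hℓ] at this
    have h2 : (w : ℝ) + 1 ≤ n := by exact_mod_cast hn.1
    have h3 : (y : ℝ) / ℓ ^ (A + 1) ≤ y / ℓ ^ A := by
      apply div_le_div_of_nonneg_left hy0.le (by positivity)
      exact pow_le_pow_right₀ (by linarith) (by omega)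
    linarith
  have hup := nonprime_le w y q c hno
  have hsq := hC1 (y : ℝ)
  rw [← psiAP_diff w y q c hwy] at hup
  -- logs
  obtain ⟨ℓ', hℓ'⟩ : ∃ ℓ', ℓ' = Real.log w := ⟨_, rfl⟩
  have hll : ℓ / 2 ≤ ℓ' := by
    have h2 : Real.sqrt y ≤ w := by
      rw [Real.sqrt_le_left (by linarith)]
      nlinarith
    have h3 := Real.log_le_log (Real.sqrt_pos.2 hy0) h2
    rw [Real.log_sqrt hy0.le, ← hℓ, ← hℓ'] at h3
    exact h3
  have hl'0 : 0 < ℓ' := by linarith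
  -- the estimates
  have hqK1 : (q : ℝ) ≤ ℓ ^ (K + 1) := hqK.trans (pow_le_pow_right₀ (by linarith) (by omega))
  have hqK2 : (q : ℝ) ≤ ℓ' ^ (K + 1) := by
    refine hqK.trans ?_
    calc ℓ ^ K = ℓ ^ K * 1 := by ring
      _ ≤ ℓ ^ K * (ℓ / 2 ^ (K + 1)) := by
          apply mul_le_mul_of_nonneg_left _ (by positivity)
          rw [le_div_iff₀ (by positivity), one_mul]; exact hlK
      _ = (ℓ / 2) ^ (K + 1) := by rw [div_pow, pow_succ ℓ K]; ring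
      _ ≤ ℓ' ^ (K + 1) := pow_le_pow_left₀ (by positivity) hll _
  have a1 := h1 y (by omega) q hq (by rw [← hℓ]; exact hqK1) c hc hcop
  have a2 := h1 w (by omega) q hq (by rw [← hℓ']; exact hqK2) c hc hcop
  have a3 := hpnt y (by omega)
  have a4 := hpnt w (by omega)
  rw [← hℓ] at a1 a3
  rw [← hℓ'] at a2 a4
  obtain ⟨T, hT⟩ : ∃ T, T = (y : ℝ) / ℓ ^ U := ⟨_, rfl⟩
  obtain ⟨G, hG⟩ : ∃ G : ℝ, G = 2 ^ U := ⟨_, rfl⟩
  have hG1 : 1 ≤ G := by rw [hG]; exact one_le_pow₀ (by norm_num)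
  have hT0 : 0 < T := by rw [hT]; positivity
  have hwT : (w : ℝ) / ℓ' ^ U ≤ G * T := by
    have h3 : (ℓ / 2) ^ U ≤ ℓ' ^ U := pow_le_pow_left₀ (by positivity) hll _
    have h4 : (w : ℝ) / ℓ' ^ U ≤ y / (ℓ / 2) ^ U := by
      gcongr
    refine h4.trans (le_of_eq ?_)
    rw [hG, hT, div_pow]
    field_simp
  rw [← hT] at a1 a3
  have a2' := a2.trans hwT
  have a4' : |H343E.psi1 w - w| ≤ C * (G * T) :=
    a4.trans (mul_le_mul_of_nonneg_left hwT hC.le)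
  obtain ⟨φ, hφ⟩ : ∃ φ : ℝ, φ = (Nat.totient q : ℝ) := ⟨_, rfl⟩
  have hφ1 : 1 ≤ φ := by
    rw [hφ]; exact_mod_cast Nat.totient_pos.2 (by omega)
  have hφ0 : 0 < φ := by linarith
  have hφq : φ ≤ ℓ ^ K := by
    refine le_trans ?_ hqK
    rw [hφ]; exact_mod_cast Nat.totient_le q
  rw [← hφ] at a1 a2'
  rw [abs_le] at a1 a2' a3 a4'
  have b1 : ((z : ℝ) - (C * T + C * (G * T))) / φ ≤ (H343E.psi1 y - H343E.psi1 w) / φ := by
    apply div_le_div_of_nonneg_right _ hφ0.le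
    linarith [a3.1, a4'.2]
  have b2 : (H343E.psi1 y - H343E.psi1 w) / φ = H343E.psi1 y / φ - H343E.psi1 w / φ := by ring
  have b3 : ((z : ℝ) - (C * T + C * (G * T))) / φ = z / φ - (C * T + C * (G * T)) / φ := by ring
  have b4 : (C * T + C * (G * T)) / φ ≤ C * T + C * (G * T) := div_le_self (by positivity) hφ1
  have b5 : (z : ℝ) / φ - (C + 1) * (1 + G) * T ≤ H343E.psiAP y q c - H343E.psiAP w q c := by
    nlinarith [a1.1, a2'.2]
  have b6 : (y : ℝ) / ℓ ^ (A + 1 + K) / 2 ≤ z / φ := by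
    have h3 : (y : ℝ) / ℓ ^ (A + 1) / 2 ≤ z := by
      have h4 := hx1 y (by omega)
      have h5 : ℓ ^ (A + 1) * 2 ≤ y := by
        have h6 : ℓ ^ (A + 1) ≤ ℓ ^ (A + 1 + K) := pow_le_pow_right₀ (by linarith) (by omega)
        rw [← hℓ] at h4
        have h7 : (y : ℝ) ^ (1 / 2 : ℝ) ≤ y := by
          conv_rhs => rw [← Real.rpow_one (y : ℝ)]
          exact Real.rpow_le_rpow_of_exponent_le (by linarith) (by norm_num)
        have h8 := abs_nonneg C1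
        have h9 : 0 ≤ ℓ ^ (A + 1 + K) := by positivity
        nlinarith
      have h6 : 2 ≤ (y : ℝ) / ℓ ^ (A + 1) := by
        rw [le_div_iff₀ (by positivity)]; linarith
      linarith
    calc (y : ℝ) / ℓ ^ (A + 1 + K) / 2 = (y / ℓ ^ (A + 1) / 2) / ℓ ^ K := by
          rw [pow_add]; field_simp
      _ ≤ z / ℓ ^ K := by gcongr
      _ ≤ z / φ := div_le_div_of_nonneg_left (by positivity) hφ0 hφq
  have b7 : T = (y / ℓ ^ (A + 1 + K)) / ℓ := by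
    rw [hT, hU, pow_succ ℓ (A + 1 + K)]; field_simp
  have b8 : (C + 1) * (1 + G) * T ≤ (y / ℓ ^ (A + 1 + K)) / 4 := by
    rw [b7]
    have h3 : (0 : ℝ) ≤ y / ℓ ^ (A + 1 + K) := by positivity
    rw [mul_div_assoc', div_le_iff₀ hl0, hG]
    nlinarith [mul_le_mul_of_nonneg_left hlC h3]
  have b9 : (y : ℝ) / ℓ ^ (A + 1 + K) / 4 ≤ C1 * Real.sqrt y := by
    linarith
  have c1 := hx1 y (by omega)
  rw [← hℓ, ← Real.sqrt_eq_rpow] at c1
  have c2 : C1 ≤ |C1| := le_abs_self _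
  have c3 : 0 < Real.sqrt y := Real.sqrt_pos.2 hy0
  have c4 := Real.mul_self_sqrt hy0.le
  have c5 : 0 < ℓ ^ (A + 1 + K) := by positivity
  rw [div_div, div_le_iff₀ (by positivity)] at b9
  nlinarith [mul_le_mul_of_nonneg_right c1 c3.le, mul_pos c3 c5,
    mul_le_mul_of_nonneg_right c2 (mul_pos c3 c5).le]

end Pool.Agent.K1H34.Had
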