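import Pool.Agent.K1H34.Had.OD
import Pool.Agent.Y341.Had.Tower

/-!
# Partial Hadamard matrices from orthogonal designs and symmetric cores
-/

set_option autoImplicit false

namespace Pool.Agent.K1H34.Had

open Matrix Finset
open Pool.Agent.Y342.SK (Sg IsCoreG)

/-- there is a partial Hadamard matrix with `r` rows and `n` columns -/
def PHad (r n : ℕ) : Prop := ∃ H : Matrix (Fin r) (Fin n) ℤ,
  (∀ i j, H i j = 1 ∨ H i j = -1) ∧ H * Hᵀ = (n : ℤ) • (1 : Matrix (Fin r) (Fin r) ℤ)

theorem Sg_sq {x : ℤ} (h : Sg x) : x * x = 1 := by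
  rcases h with rfl | rfl <;> norm_num

theorem phad_of {ρ ν : Type} [Fintype ρ] [Fintype ν] (H : ρ → ν → ℤ) (hs : ∀ x y, Sg (H x y))
    (ho : ∀ x y, x ≠ y → ∑ k, H x k * H y k = 0) {r n : ℕ} (hr : Fintype.card ρ = r)
    (hn : Fintype.card ν = n) : PHad r n := by
  let e : Fin r ≃ ρ := (Fintype.equivFinOfCardEq hr).symm
  let f : Fin n ≃ ν := (Fintype.equivFinOfCardEq hn).symm
  refine ⟨Matrix.of fun i j => H (e i) (f j), fun i j => hs _ _, ?_⟩
  ext i j
  rw [Matrix.mul_apply, Matrix.smul_apply, Matrix.one_apply]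
  simp only [Matrix.of_apply, transpose_apply]
  rw [Equiv.sum_comp f fun k => H (e i) k * H (e j) k]
  by_cases hij : i = j
  · subst hij
    rw [Finset.sum_congr rfl fun k _ => Sg_sq (hs (e i) k)]
    simp [hn]
  · rw [ho _ _ fun h => hij (e.injective h), if_neg hij]
    simp

/-- Hadamard matrices are partial Hadamard matrices -/
theorem phad_had {n : ℕ} (h : Pool.Agent.TH394.HadOrder n) : PHad n n := by
  obtain ⟨H, h1, h2⟩ := h
  exact ⟨H, h1, h2⟩

/-- quadratic forms -/
theorem quad {c : Fin 4 → Fin 4 → ℤ} {w : Fin 4 → ℤ}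
    (h : ∀ x : Fin 4 → ℤ, ∑ l, ∑ m, c l m * (x l * x m) = ∑ l, w l * x l ^ 2)
    {g : Fin 4 → Fin 4 → ℤ} (hg : ∀ l m, g l m = g m l) :
    ∑ l, ∑ m, c l m * g l m = ∑ l, w l * g l l := by
  have h0 := h ![1, 0, 0, 0]
  have h1 := h ![0, 1, 0, 0]
  have h2 := h ![0, 0, 1, 0]
  have h3 := h ![0, 0, 0, 1]
  have h01 := h ![1, 1, 0, 0]
  have h02 := h ![1, 0, 1, 0]
  have h03 := h ![1, 0, 0, 1]
  have h12 := h ![0, 1, 1, 0]
  have h13 := h ![0, 1, 0, 1]
  have h23 := h ![0, 0, 1, 1]
  simp [Fin.sum_univ_four] at h0 h1 h2 h3 h01 h02 h03 h12 h13 h23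
  simp only [Fin.sum_univ_four]
  rw [hg 1 0, hg 2 0, hg 3 0, hg 2 1, hg 3 1, hg 3 2]
  linear_combination g 0 0 * h0 + g 1 1 * h1 + g 2 2 * h2 + g 3 3 * h3 +
    g 0 1 * (h01 - h0 - h1) + g 0 2 * (h02 - h0 - h2) + g 0 3 * (h03 - h0 - h3) +
    g 1 2 * (h12 - h1 - h2) + g 1 3 * (h13 - h1 - h3) + g 2 3 * (h23 - h2 - h3)

section plug

variable {μ : Type} [Fintype μ] [DecidableEq μ] {w : Fin 4 → ℤ} (O : OD μ w)

/-- plugging symmetric data into an orthogonal design -/
theorem OD.plug (i j : μ) {g : Fin 4 → Fin 4 → ℤ} (hg : ∀ l m, g l m = g m l) :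
    ∑ k, O.sgn i k * O.sgn j k * g (O.lab i k) (O.lab j k) =
      if i = j then ∑ l, w l * g l l else 0 := by
  let c : Fin 4 → Fin 4 → ℤ := fun l m => ∑ k, O.sgn i k * O.sgn j k *
    ((if O.lab i k = l then 1 else 0) * (if O.lab j k = m then 1 else 0))
  have hc : ∀ h : Fin 4 → Fin 4 → ℤ, ∑ k, O.sgn i k * O.sgn j k * h (O.lab i k) (O.lab j k) =
      ∑ l, ∑ m, c l m * h l m := by
    intro h
    simp only [c, Finset.sum_mul]
    have e1 : ∀ l, ∑ m, ∑ k, O.sgn i k * O.sgn j k * ((if O.lab i k = l then 1 else 0) *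
        (if O.lab j k = m then 1 else 0)) * h l m =
        ∑ k, O.sgn i k * O.sgn j k * ((if O.lab i k = l then 1 else 0) * h l (O.lab j k)) := by
      intro l
      rw [Finset.sum_comm]
      refine Finset.sum_congr rfl fun k _ => ?_
      rw [Finset.sum_eq_single (O.lab j k)]
      · rw [if_pos rfl]; ring
      · intro b _ hb
        rw [if_neg (Ne.symm hb)]; ring
      · intro h; exact absurd (mem_univ _) h
    rw [Finset.sum_congr rfl fun l _ => e1 l, Finset.sum_comm]
    refine Finset.sum_congr rfl fun k _ => ?_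
    rw [Finset.sum_eq_single (O.lab i k)]
    · rw [if_pos rfl]; ring
    · intro b _ hb
      rw [if_neg (Ne.symm hb)]; ring
    · intro h; exact absurd (mem_univ _) h
  rw [hc]
  have key : ∀ x : Fin 4 → ℤ, ∑ l, ∑ m, c l m * (x l * x m) =
      ∑ l, (if i = j then w l else 0) * x l ^ 2 := by
    intro x
    rw [← hc fun l m => x l * x m]
    have h := O.orth x i j
    rw [Finset.sum_congr rfl fun k _ => (by ring : O.sgn i k * O.sgn j k *
      (x (O.lab i k) * x (O.lab j k)) = (O.sgn i k * x (O.lab i k)) * (O.sgn j k * x (O.lab j k))),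
      h]
    by_cases hij : i = j <;> simp [hij]
  rw [quad key hg]
  by_cases hij : i = j <;> simp [hij]

end plug

section core

variable {v : ℕ} {B : Fin v → Fin v → ℤ}

/-- the four matrices -/
def XX (B : Fin v → Fin v → ℤ) (l : Fin 4) (a b : Fin v) : ℤ :=
  if l = 0 then B a b + (if a = b then 1 else 0)
  else if l = 1 then B a b - (if a = b then 1 else 0)
  else if l = 2 then 1 else 1 - 2 * (if a = b then 1 else 0)

theorem XX_sg (hB : IsCoreG 1 B) (l : Fin 4) (a b : Fin v) : Sg (XX B l a b) := by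
  unfold XX
  by_cases hab : a = b
  · subst hab
    rw [hB.diag]
    simp only [if_true]
    split_ifs <;> simp [Sg]
  · have := hB.sign a b hab
    simp only [if_neg hab]
    split_ifs
    · simpa using this
    · simpa using this
    · simp [Sg]
    · simp [Sg]

/-- the inner products -/
def gg (B : Fin v → Fin v → ℤ) (a a' : Fin v) (l m : Fin 4) : ℤ := ∑ b, XX B l a b * XX B m a' b

theorem gg_eq (hB : IsCoreG 1 B) (a a' : Fin v) (x y z x' y' z' : ℤ) :
    ∑ b, (x * B a b + y * (if a = b then 1 else 0) + z) *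
      (x' * B a' b + y' * (if a' = b then 1 else 0) + z') =
      (x * x') * ((if a = a' then (v : ℤ) else 0) - 1) + (x * y' + y * x') * B a a' +
        (y * y') * (if a = a' then 1 else 0) + (y * z' + z * y') + z * z' * v := by
  have h1 : ∀ b, (x * B a b + y * (if a = b then 1 else 0) + z) *
      (x' * B a' b + y' * (if a' = b then 1 else 0) + z') =
      (x * x') * (B a b * B a' b) + (x * y') * (if a' = b then B a b else 0) + (x * z') * B a b +
      (y * x') * (if a = b then B a' b else 0) +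
      (y * y') * (if a = b then (if a' = b then 1 else 0) else 0) + (y * z') * (if a = b then 1 else 0) +
      (z * x') * B a' b + (z * y') * (if a' = b then 1 else 0) + z * z' := by
    intro b
    split_ifs <;> ring
  rw [Finset.sum_congr rfl fun b _ => h1 b]
  simp only [Finset.sum_add_distrib, ← Finset.mul_sum, hB.mul, hB.row, Finset.sum_ite_eq,
    Finset.mem_univ, if_true, Finset.sum_const, Finset.card_univ, Fintype.card_fin, nsmul_eq_mul]
  have h2 : B a' a = B a a' := by rw [hB.sym a a', one_mul]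
  have h3 : (if a' = a then (1 : ℤ) else 0) = if a = a' then 1 else 0 := by
    by_cases h : a = a'
    · rw [if_pos h, if_pos h.symm]
    · rw [if_neg h, if_neg (Ne.symm h)]
  rw [h2, h3]
  ring

/-- coefficients of `XX` -/
def xc (l : Fin 4) : ℤ := ![1, 1, 0, 0] l
/-- coefficients of `XX` -/
def yc (l : Fin 4) : ℤ := ![1, -1, 0, -2] l
/-- coefficients of `XX` -/
def zc (l : Fin 4) : ℤ := ![0, 0, 1, 1] l

theorem XX_eq (l : Fin 4) (a b : Fin v) : XX B l a b =
    xc l * B a b + yc l * (if a = b then 1 else 0) + zc l := by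
  by_cases hab : a = b <;> fin_cases l <;> simp [XX, xc, yc, zc, hab] <;> ring

theorem gg_formula (hB : IsCoreG 1 B) (a a' : Fin v) (l m : Fin 4) : gg B a a' l m =
    (xc l * xc m) * ((if a = a' then (v : ℤ) else 0) - 1) + (xc l * yc m + yc l * xc m) * B a a' +
        (yc l * yc m) * (if a = a' then 1 else 0) + (yc l * zc m + zc l * yc m) + zc l * zc m * v := by
  rw [← gg_eq hB]
  unfold gg
  exact Finset.sum_congr rfl fun b _ => by rw [XX_eq, XX_eq]

theorem gg_symm (hB : IsCoreG 1 B) (a a' : Fin v) (l m : Fin 4) :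
    gg B a a' l m = gg B a a' m l := by
  rw [gg_formula hB, gg_formula hB]
  ring

theorem gg_sum (hB : IsCoreG 1 B) {w : Fin 4 → ℤ} (hw : w 0 = w 1) (a a' : Fin v) (h : a ≠ a') :
    ∑ l, w l * gg B a a' l l = - (2 * w 0 - v * (w 2 + w 3) + 4 * w 3) := by
  simp only [gg_formula hB, if_neg h, Fin.sum_univ_four]
  simp [xc, yc, zc]
  rw [← hw]
  ring

end core

/-- **The construction.** An orthogonal design of order `M` with weights `w`, `w 0 = w 1`, a
symmetric core of order `v` and a partial Hadamard matrix with `r ≤ M` rows and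
`m = 2 w 0 - v (w 2 + w 3) + 4 w 3` columns give a partial Hadamard matrix with `v r` rows and
`v M + m` columns. -/
theorem phad_main {M : ℕ} {w : Fin 4 → ℤ} (O : OD (Fin M) w) (hw : w 0 = w 1) {v : ℕ}
    {B : Fin v → Fin v → ℤ} (hB : IsCoreG 1 B) {r m : ℕ}
    (hm : (m : ℤ) = 2 * w 0 - v * (w 2 + w 3) + 4 * w 3) (hF : PHad r m) (hr : r ≤ M) :
    PHad (v * r) (v * M + m) := by
  obtain ⟨F, hF1, hF2⟩ := hF
  let e : Fin r → Fin M := Fin.castLE hr
  have he : Function.Injective e := Fin.castLE_injective hr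
  let H : Fin v × Fin r → (Fin v × Fin M) ⊕ Fin m → ℤ := fun p => Sum.elim
    (fun c => O.sgn (e p.2) c.2 * XX B (O.lab (e p.2) c.2) p.1 c.1) (fun t => F p.2 t)
  refine phad_of H ?_ ?_ (by simp) (by simp)
  · rintro ⟨a, i⟩ (⟨b, k⟩ | t)
    · exact (O.sg _ _).mul (XX_sg hB _ _ _)
    · exact hF1 _ _
  · rintro ⟨a, i⟩ ⟨a', j⟩ hne
    rw [Fintype.sum_sum_type]
    have h1 : ∑ c : Fin v × Fin M, H (a, i) (.inl c) * H (a', j) (.inl c) =
        if i = j then ∑ l, w l * gg B a a' l l else 0 := by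
      have h2 := O.plug (e i) (e j) (g := gg B a a') (gg_symm hB a a')
      have h3 : (if e i = e j then ∑ l, w l * gg B a a' l l else 0) =
          if i = j then ∑ l, w l * gg B a a' l l else 0 := by
        by_cases hij : i = j
        · rw [if_pos hij, if_pos (congrArg e hij)]
        · rw [if_neg hij, if_neg fun h => hij (he h)]
      rw [← h3, ← h2, Fintype.sum_prod_type, Finset.sum_comm]
      refine Finset.sum_congr rfl fun k _ => ?_
      unfold gg
      rw [Finset.mul_sum]
      refine Finset.sum_congr rfl fun b _ => ?_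
      simp only [H, Sum.elim_inl]
      ring
    have h4 : ∑ t : Fin m, H (a, i) (.inr t) * H (a', j) (.inr t) =
        if i = j then (m : ℤ) else 0 := by
      have h5 := congrFun (congrFun hF2 i) j
      rw [Matrix.mul_apply, Matrix.smul_apply, Matrix.one_apply, smul_eq_mul, mul_ite, mul_one,
        mul_zero] at h5
      rw [← h5]
      rfl
    rw [h1, h4]
    by_cases hij : i = j
    · subst hij
      have haa : a ≠ a' := fun h => hne (by rw [h])
      rw [if_pos rfl, if_pos rfl, gg_sum hB hw a a' haa, hm]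
      ring
    · rw [if_neg hij, if_neg hij, add_zero]

end Pool.Agent.K1H34.Had
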