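import Pool.Agent.Y342.SK.Base

/-!
# Parts of the skew conference matrix of a gadget

The skew conference matrix of the gadgets of `Pool.Agent.Y342.SK` is a sum of disjoint pairwise
anticommuting skew parts whose weights `w c` have all the numbers below the order as subset sums.
-/

set_option autoImplicit false

namespace Pool.Agent.K1H34.Had

open Matrix Finset
open scoped Kronecker
open Pool.Agent.Y342.SK

/-- a decomposition of the skew conference matrix of a gadget into parts -/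
structure Parts {ι κ : Type} [Fintype ι] [DecidableEq ι] [Fintype κ] [DecidableEq κ]
    (G : Gad ι κ) (γ : Type) [Fintype γ] [DecidableEq γ] where
  /-- the parts -/
  P : γ → Matrix ι ι ℤ
  /-- the weights -/
  w : γ → ℕ
  diag : ∀ c x, P c x x = 0
  sup : ∀ x y, x ≠ y → ∃ c, Sg (P c x y) ∧ ∀ b, b ≠ c → P b x y = 0
  PT : ∀ c, (P c)ᵀ = - P c
  PP : ∀ c, P c * P c = (-(w c : ℤ)) • (1 : Matrix ι ι ℤ)
  anti : ∀ c d, c ≠ d → Rel (-1) (P c) (P d)
  PA : ∀ c a, Rel (-1) (P c) (G.A a)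
  PE : ∀ c, Rel (-1) (P c) G.E
  PY : ∀ c, Rel (-1) (P c) G.Y
  tot : 1 + ∑ c, w c = Fintype.card ι
  sub : ∀ i, i < Fintype.card ι → ∃ s : Finset γ, ∑ c ∈ s, w c = i

namespace Parts

variable {ι κ : Type} [Fintype ι] [DecidableEq ι] [Fintype κ] [DecidableEq κ] {G : Gad ι κ}
variable {γ : Type} [Fintype γ] [DecidableEq γ] (D : Parts G γ)

/-- the new parts -/
def stepP (c : γ ⊕ (γ ⊕ Unit)) : Matrix (Fin 2 × (ι × ι)) (Fin 2 × (ι × ι)) ℤ :=
  match c with
  | .inl c => (1 : Matrix (Fin 2) (Fin 2) ℤ) ⊗ₖ (D.P c ⊗ₖ G.Y)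
  | .inr (.inl c) => (1 : Matrix (Fin 2) (Fin 2) ℤ) ⊗ₖ ((1 : Matrix ι ι ℤ) ⊗ₖ D.P c)
  | .inr (.inr _) => ep ⊗ₖ (G.E ⊗ₖ G.E)

/-- the new weights -/
def stepw (c : γ ⊕ (γ ⊕ Unit)) : ℕ :=
  match c with
  | .inl c => Fintype.card ι * D.w c
  | .inr (.inl c) => D.w c
  | .inr (.inr _) => Fintype.card ι * Fintype.card ι

theorem one2 : Rel 1 (1 : Matrix (Fin 2) (Fin 2) ℤ) 1 := Rel.refl _

theorem YP (c : γ) : Rel (-1) G.Y (D.P c) := (D.PY c).symm (by norm_num)
theorem EP (c : γ) : Rel (-1) G.E (D.P c) := (D.PE c).symm (by norm_num)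

theorem step_anti (c d : γ ⊕ (γ ⊕ Unit)) (h : c ≠ d) : Rel (-1) (D.stepP c) (D.stepP d) := by
  rcases c with c | c | c <;> rcases d with d | d | d
  · have hcd : c ≠ d := fun h' => h (by rw [h'])
    simpa [stepP] using one2.kron ((D.anti c d hcd).kron (Rel.refl G.Y))
  · simpa [stepP] using one2.kron ((Rel.one_right (D.P c)).kron (D.YP d))
  · simpa [stepP] using (Rel.one_left ep).kron ((D.PE c).kron G.YE)
  · simpa [stepP] using one2.kron ((Rel.one_left (D.P d)).kron (D.PY c))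
  · have hcd : c ≠ d := fun h' => h (by rw [h'])
    simpa [stepP] using one2.kron ((Rel.refl (1 : Matrix ι ι ℤ)).kron (D.anti c d hcd))
  · simpa [stepP] using (Rel.one_left ep).kron ((Rel.one_left G.E).kron (D.PE c))
  · simpa [stepP] using (Rel.one_right ep).kron ((D.EP d).kron G.EY)
  · simpa [stepP] using (Rel.one_right ep).kron ((Rel.one_right G.E).kron (D.EP d))
  · exact absurd rfl h

theorem step_PA (c : γ ⊕ (γ ⊕ Unit)) (p : Fin 2 × κ) : Rel (-1) (D.stepP c) (G.stepA p) := by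
  obtain ⟨i, a⟩ := p
  rcases c with c | c | c
  · fin_cases i
    · change Rel (-1) _ ((1 : Matrix (Fin 2) (Fin 2) ℤ) ⊗ₖ (G.A a ⊗ₖ G.Y))
      simpa [stepP] using one2.kron ((D.PA c a).kron (Rel.refl G.Y))
    · change Rel (-1) _ (ep ⊗ₖ (G.E ⊗ₖ G.A a))
      simpa [stepP] using (Rel.one_left ep).kron ((D.PE c).kron (G.YA a))
  · fin_cases i
    · change Rel (-1) _ ((1 : Matrix (Fin 2) (Fin 2) ℤ) ⊗ₖ (G.A a ⊗ₖ G.Y))
      simpa [stepP] using one2.kron ((Rel.one_left (G.A a)).kron (D.PY c))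
    · change Rel (-1) _ (ep ⊗ₖ (G.E ⊗ₖ G.A a))
      simpa [stepP] using (Rel.one_left ep).kron ((Rel.one_left G.E).kron (D.PA c a))
  · fin_cases i
    · change Rel (-1) _ ((1 : Matrix (Fin 2) (Fin 2) ℤ) ⊗ₖ (G.A a ⊗ₖ G.Y))
      simpa [stepP] using (Rel.one_right ep).kron ((G.EA a).kron G.EY)
    · change Rel (-1) _ (ep ⊗ₖ (G.E ⊗ₖ G.A a))
      simpa [stepP] using (Rel.refl ep).kron ((Rel.refl G.E).kron (G.EA a))

theorem step_PE (c : γ ⊕ (γ ⊕ Unit)) : Rel (-1) (D.stepP c) (hh ⊗ₖ (G.E ⊗ₖ G.Y)) := by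
  rcases c with c | c | c
  · simpa [stepP] using (Rel.one_left hh).kron ((D.PE c).kron (Rel.refl G.Y))
  · simpa [stepP] using (Rel.one_left hh).kron ((Rel.one_left G.E).kron (D.PY c))
  · simpa [stepP] using ep_hh.kron ((Rel.refl G.E).kron G.EY)

theorem step_PY (c : γ ⊕ (γ ⊕ Unit)) : Rel (-1) (D.stepP c) (hh ⊗ₖ (G.Y ⊗ₖ G.E)) := by
  rcases c with c | c | c
  · simpa [stepP] using (Rel.one_left hh).kron ((D.PY c).kron G.YE)
  · simpa [stepP] using (Rel.one_left hh).kron ((Rel.one_left G.Y).kron (D.PE c))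
  · simpa [stepP] using ep_hh.kron (G.EY.kron (Rel.refl G.E))

theorem step_PT (c : γ ⊕ (γ ⊕ Unit)) : (D.stepP c)ᵀ = - D.stepP c := by
  rcases c with c | c | c
  · simp only [stepP]
    rw [← kroneckerMap_transpose, ← kroneckerMap_transpose, transpose_one, D.PT, G.YT]
    ext i j
    simp only [Matrix.neg_apply, kroneckerMap_apply]
    ring
  · simp only [stepP]
    rw [← kroneckerMap_transpose, ← kroneckerMap_transpose, transpose_one, transpose_one, D.PT]
    ext i j
    simp only [Matrix.neg_apply, kroneckerMap_apply]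
    ring
  · simp only [stepP]
    rw [← kroneckerMap_transpose, ← kroneckerMap_transpose, G.ET, epT]
    ext i j
    simp only [Matrix.neg_apply, kroneckerMap_apply]
    ring

omit [Fintype ι] in
theorem smul_kron_one {κ' : Type} [Fintype κ'] [DecidableEq κ'] (a : ℤ) :
    (a • (1 : Matrix ι ι ℤ)) ⊗ₖ (1 : Matrix κ' κ' ℤ) = a • (1 : Matrix (ι × κ') (ι × κ') ℤ) := by
  rw [smul_kronecker, one_kronecker_one]

omit [Fintype ι] in
theorem one_kron_smul {κ' : Type} [Fintype κ'] [DecidableEq κ'] (a : ℤ) :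
    (1 : Matrix κ' κ' ℤ) ⊗ₖ (a • (1 : Matrix ι ι ℤ)) = a • (1 : Matrix (κ' × ι) (κ' × ι) ℤ) := by
  rw [kronecker_smul, one_kronecker_one]

theorem step_PP (c : γ ⊕ (γ ⊕ Unit)) : D.stepP c * D.stepP c =
    (-(D.stepw c : ℤ)) • (1 : Matrix (Fin 2 × (ι × ι)) _ ℤ) := by
  rcases c with c | c | c
  · simp only [stepP, stepw]
    rw [← mul_kronecker_mul, ← mul_kronecker_mul, one_mul, D.PP, G.YY, smul_one_kron,
      one_kron_smul]
    congr 1
    push_cast
    ring
  · simp only [stepP, stepw]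
    rw [← mul_kronecker_mul, ← mul_kronecker_mul, one_mul, one_mul, D.PP, one_kron_smul,
      one_kron_smul]
  · simp only [stepP, stepw]
    have e1 : (-1 : Matrix (Fin 2) (Fin 2) ℤ) = (-1 : ℤ) • 1 := by simp
    rw [← mul_kronecker_mul, ← mul_kronecker_mul, ep_ep, G.EE, smul_one_kron, e1, smul_one_kron]
    congr 1
    push_cast
    ring

theorem step_diag (c : γ ⊕ (γ ⊕ Unit)) (x : Fin 2 × (ι × ι)) : D.stepP c x x = 0 := by
  obtain ⟨i, x, x'⟩ := x
  rcases c with c | c | c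
  · simp only [stepP, kroneckerMap_apply, D.diag, zero_mul, mul_zero]
  · simp only [stepP, kroneckerMap_apply, D.diag, mul_zero]
  · simp only [stepP, kroneckerMap_apply, ep_self, zero_mul]

theorem step_sup (x y : Fin 2 × (ι × ι)) (h : x ≠ y) :
    ∃ c, Sg (D.stepP c x y) ∧ ∀ b, b ≠ c → D.stepP b x y = 0 := by
  obtain ⟨i, x, x'⟩ := x
  obtain ⟨j, y, y'⟩ := y
  by_cases hij : i = j
  · subst hij
    by_cases hxy : x = y
    · subst hxy
      have hx' : x' ≠ y' := fun h' => h (by rw [h'])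
      obtain ⟨c, hc, hb⟩ := D.sup x' y' hx'
      refine ⟨.inr (.inl c), ?_, ?_⟩
      · simp only [stepP, kroneckerMap_apply, Matrix.one_apply_eq, one_mul]
        exact hc
      · rintro (b | b | b) hbc
        · simp only [stepP, kroneckerMap_apply, D.diag, zero_mul, mul_zero]
        · simp only [stepP, kroneckerMap_apply, Matrix.one_apply_eq, one_mul]
          exact hb b fun h' => hbc (by rw [h'])
        · simp only [stepP, kroneckerMap_apply, ep_self, zero_mul]
    · obtain ⟨c, hc, hb⟩ := D.sup x y hxy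
      refine ⟨.inl c, ?_, ?_⟩
      · simp only [stepP, kroneckerMap_apply, Matrix.one_apply_eq, one_mul]
        exact hc.mul (G.Ys _ _)
      · rintro (b | b | b) hbc
        · simp only [stepP, kroneckerMap_apply, Matrix.one_apply_eq, one_mul]
          rw [hb b fun h' => hbc (by rw [h']), zero_mul]
        · simp only [stepP, kroneckerMap_apply, Matrix.one_apply_ne hxy, zero_mul, mul_zero]
        · simp only [stepP, kroneckerMap_apply, ep_self, zero_mul]
  · refine ⟨.inr (.inr ()), ?_, ?_⟩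
    · simp only [stepP, kroneckerMap_apply]
      exact (ep_ne _ _ hij).mul ((G.Es _ _).mul (G.Es _ _))
    · rintro (b | b | b) hbc
      · simp only [stepP, kroneckerMap_apply, Matrix.one_apply_ne hij, zero_mul]
      · simp only [stepP, kroneckerMap_apply, Matrix.one_apply_ne hij, zero_mul]
      · exact absurd rfl hbc

omit [DecidableEq ι] in
theorem card_step' : Fintype.card (Fin 2 × (ι × ι)) = 2 * (Fintype.card ι * Fintype.card ι) := by
  rw [Fintype.card_prod, Fintype.card_prod, Fintype.card_fin]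

theorem sum_stepw (s : Finset γ) (t : Finset γ) (u : Finset Unit) :
    ∑ c ∈ s.disjSum (t.disjSum u), D.stepw c = Fintype.card ι * ∑ c ∈ s, D.w c +
      (∑ c ∈ t, D.w c + u.card * (Fintype.card ι * Fintype.card ι)) := by
  rw [Finset.sum_disjSum, Finset.sum_disjSum, Finset.mul_sum]
  simp [stepw]

theorem step_tot : 1 + ∑ c, D.stepw c = Fintype.card (Fin 2 × (ι × ι)) := by
  have h := D.sum_stepw univ univ univ
  have e : (univ : Finset (γ ⊕ (γ ⊕ Unit))) = univ.disjSum (univ.disjSum univ) := by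
    ext c
    rcases c with c | c | c <;> simp
  rw [e, h, card_step']
  have ht := D.tot
  have h1 : (univ : Finset Unit).card = 1 := rfl
  rw [h1, ← ht]
  ring

theorem step_sub (i : ℕ) (hi : i < Fintype.card (Fin 2 × (ι × ι))) :
    ∃ s : Finset (γ ⊕ (γ ⊕ Unit)), ∑ c ∈ s, D.stepw c = i := by
  rw [card_step'] at hi
  obtain ⟨N, hN⟩ : ∃ N, N = Fintype.card ι := ⟨_, rfl⟩
  have key : ∀ j, j < N * N → ∃ s t : Finset γ,
      N * (∑ c ∈ s, D.w c) + ∑ c ∈ t, D.w c = j := by
    intro j hj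
    have hN0 : 0 < N := by
      rcases Nat.eq_zero_or_pos N with h | h
      · rw [h] at hj; simp at hj
      · exact h
    obtain ⟨s, hs⟩ := D.sub (j / N) (by
      rw [← hN]
      exact Nat.div_lt_of_lt_mul hj)
    obtain ⟨t, ht⟩ := D.sub (j % N) (by
      rw [← hN]
      exact Nat.mod_lt _ hN0)
    exact ⟨s, t, by rw [hs, ht, Nat.div_add_mod]⟩
  by_cases h : i < N * N
  · obtain ⟨s, t, hst⟩ := key i h
    refine ⟨s.disjSum (t.disjSum ∅), ?_⟩
    rw [D.sum_stepw, ← hN, card_empty]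
    omega
  · obtain ⟨s, t, hst⟩ := key (i - N * N) (by rw [← hN] at hi; omega)
    refine ⟨s.disjSum (t.disjSum univ), ?_⟩
    rw [D.sum_stepw, ← hN]
    have h1 : (univ : Finset Unit).card = 1 := rfl
    rw [h1]
    omega

/-- the parts of the next gadget -/
def step : Parts G.step (γ ⊕ (γ ⊕ Unit)) where
  P := D.stepP
  w := D.stepw
  diag := D.step_diag
  sup := D.step_sup
  PT := D.step_PT
  PP := D.step_PP
  anti := D.step_anti
  PA := D.step_PA
  PE := D.step_PE
  PY := D.step_PY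
  tot := D.step_tot
  sub := D.step_sub

end Parts

end Pool.Agent.K1H34.Had
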